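import Mathlib
import Pool.Agent.W87.Restr

set_option autoImplicit false

/-!
# Paley graphs are bijumbled and self-complementary
-/

open Finset

namespace Pool.Agent.V7H28.RM

open Pool.Agent.W87.Restr

/-- The Paley graph of a finite field: two distinct elements are adjacent when their difference is a
square. -/
def paley (F : Type) [Field F] : SimpleGraph F := SimpleGraph.fromRel (fun x y => IsSquare (x - y))

section

variable {F : Type} [Field F] [Fintype F]

lemma neg_one_sq (h4 : Fintype.card F % 4 = 1) : IsSquare (-1 : F) := by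
  rw [FiniteField.isSquare_neg_one_iff]
  omega

lemma paley_adj (h4 : Fintype.card F % 4 = 1) {x y : F} :
    (paley F).Adj x y ↔ x ≠ y ∧ IsSquare (x - y) := by
  unfold paley
  rw [SimpleGraph.fromRel_adj]
  constructor
  · rintro ⟨hne, h | h⟩
    · exact ⟨hne, h⟩
    · refine ⟨hne, ?_⟩
      have e : x - y = -1 * (y - x) := by ring
      rw [e]
      exact (neg_one_sq h4).mul h
  · rintro ⟨hne, h⟩
    exact ⟨hne, Or.inl h⟩

variable [DecidableEq F]

lemma char_ne_two (h4 : Fintype.card F % 4 = 1) : ringChar F ≠ 2 := by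
  intro h
  have h1 := FiniteField.even_card_of_char_two h
  omega

/-- the real valued quadratic character -/
noncomputable def qc (F : Type) [Field F] [Fintype F] [DecidableEq F] (a : F) : ℝ :=
  ((quadraticChar F a : ℤ) : ℝ)

lemma qc_zero : qc F 0 = 0 := by
  unfold qc
  simp

lemma qc_sq {a : F} (ha : a ≠ 0) : qc F a * qc F a = 1 := by
  unfold qc
  have h := quadraticChar_sq_one (F := F) ha
  rw [← Int.cast_mul, ← sq, h]
  norm_num

lemma qc_mul (a b : F) : qc F (a * b) = qc F a * qc F b := by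
  unfold qc
  rw [map_mul]
  push_cast
  ring

lemma qc_sum (hF : ringChar F ≠ 2) : ∑ a : F, qc F a = 0 := by
  unfold qc
  rw [← Int.cast_sum, quadraticChar_sum_zero hF]
  norm_num

/-- the correlation of two translates -/
lemma qc_corr (hF : ringChar F ≠ 2) {c : F} (hc : c ≠ 0) :
    ∑ x : F, qc F x * qc F (x + c) = -1 := by
  -- over nonzero `x` the product is `qc (1 + c / x)`
  have h1 : ∑ x : F, qc F x * qc F (x + c) = ∑ x ∈ univ.erase (0 : F), qc F (1 + c * x⁻¹) := by
    rw [← Finset.add_sum_erase univ _ (mem_univ (0 : F)), qc_zero, zero_mul, zero_add]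
    apply Finset.sum_congr rfl
    intro x hx
    have hx0 : x ≠ 0 := ne_of_mem_erase hx
    have e : x + c = x * (1 + c * x⁻¹) := by
      field_simp
    rw [e, qc_mul, ← mul_assoc, qc_sq hx0, one_mul]
  have h2 : ∑ x ∈ univ.erase (0 : F), qc F (1 + c * x⁻¹) = ∑ w ∈ univ.erase (1 : F), qc F w := by
    refine Finset.sum_bij' (fun x _ => 1 + c * x⁻¹) (fun w _ => c * (w - 1)⁻¹) ?_ ?_ ?_ ?_ ?_
    · intro x hx
      have hx0 : x ≠ 0 := ne_of_mem_erase hx
      refine mem_erase.mpr ⟨?_, mem_univ _⟩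
      intro h
      have : c * x⁻¹ = 0 := by linear_combination h
      rcases mul_eq_zero.mp this with h' | h'
      · exact hc h'
      · exact hx0 (inv_eq_zero.mp h')
    · intro w hw
      have hw1 : w ≠ 1 := ne_of_mem_erase hw
      have hw2 : w - 1 ≠ 0 := sub_ne_zero.mpr hw1
      exact mem_erase.mpr ⟨mul_ne_zero hc (inv_ne_zero hw2), mem_univ _⟩
    · intro x hx
      have hx0 : x ≠ 0 := ne_of_mem_erase hx
      simp only [add_sub_cancel_left, mul_inv, inv_inv]
      field_simp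
    · intro w hw
      have hw1 : w ≠ 1 := ne_of_mem_erase hw
      have hw2 : w - 1 ≠ 0 := sub_ne_zero.mpr hw1
      simp only [mul_inv, inv_inv]
      field_simp
      ring
    · intro x _
      rfl
  have h3 : qc F 1 + ∑ w ∈ univ.erase (1 : F), qc F w = 0 := by
    rw [Finset.add_sum_erase univ _ (mem_univ (1 : F))]
    exact qc_sum hF
  have h4 : qc F 1 = 1 := by
    unfold qc
    simp
  rw [h1, h2]
  linarith

lemma qc_corr2 (hF : ringChar F ≠ 2) (y z : F) :
    ∑ x : F, qc F (x - y) * qc F (x - z) = if y = z then (Fintype.card F : ℝ) - 1 else -1 := by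
  have h1 : ∑ x : F, qc F (x - y) * qc F (x - z) = ∑ x : F, qc F x * qc F (x + (y - z)) := by
    refine Fintype.sum_equiv (Equiv.subRight y) _ _ ?_
    intro x
    simp only [Equiv.subRight_apply]
    congr 2
    ring
  rw [h1]
  split_ifs with h
  · rw [h, sub_self]
    simp only [add_zero]
    rw [← Finset.add_sum_erase univ _ (mem_univ (0 : F)), qc_zero, zero_mul, zero_add]
    have h2 : ∑ x ∈ univ.erase (0 : F), qc F x * qc F x = ∑ x ∈ univ.erase (0 : F), (1 : ℝ) :=
      Finset.sum_congr rfl fun x hx => qc_sq (ne_of_mem_erase hx)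
    rw [h2, sum_const, card_erase_of_mem (mem_univ _), card_univ, nsmul_eq_mul, mul_one]
    rw [Nat.cast_sub Fintype.card_pos]
    simp
  · exact qc_corr hF (sub_ne_zero.mpr h)

/-- the character sum over two sets -/
lemma qc_double (hF : ringChar F ≠ 2) (X Y : Finset F) :
    (∑ x ∈ X, ∑ y ∈ Y, qc F (x - y)) ^ 2 ≤ (Fintype.card F : ℝ) * ((X.card : ℝ) * Y.card) := by
  have h1 : (∑ x ∈ X, ∑ y ∈ Y, qc F (x - y)) ^ 2
      ≤ X.card * ∑ x ∈ X, (∑ y ∈ Y, qc F (x - y)) ^ 2 := sq_sum_le_card_mul_sum_sq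
  have h2 : ∑ x ∈ X, (∑ y ∈ Y, qc F (x - y)) ^ 2 ≤ ∑ x : F, (∑ y ∈ Y, qc F (x - y)) ^ 2 :=
    Finset.sum_le_sum_of_subset_of_nonneg (subset_univ X) (fun x _ _ => sq_nonneg _)
  have h3 : ∑ x : F, (∑ y ∈ Y, qc F (x - y)) ^ 2
      = ∑ y ∈ Y, ∑ z ∈ Y, ∑ x : F, qc F (x - y) * qc F (x - z) := by
    simp only [sq, Finset.sum_mul_sum]
    rw [Finset.sum_comm]
    apply Finset.sum_congr rfl
    intro y _
    rw [Finset.sum_comm]
  have h4 : ∑ y ∈ Y, ∑ z ∈ Y, ∑ x : F, qc F (x - y) * qc F (x - z)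
      ≤ ∑ y ∈ Y, (Fintype.card F : ℝ) := by
    apply Finset.sum_le_sum
    intro y hy
    have h5 : ∀ z ∈ Y, ∑ x : F, qc F (x - y) * qc F (x - z)
        ≤ if y = z then (Fintype.card F : ℝ) else 0 := by
      intro z _
      rw [qc_corr2 hF]
      split_ifs <;> linarith
    refine (Finset.sum_le_sum h5).trans ?_
    rw [Finset.sum_ite_eq]
    simp [hy]
  rw [sum_const, nsmul_eq_mul] at h4
  calc (∑ x ∈ X, ∑ y ∈ Y, qc F (x - y)) ^ 2
      ≤ X.card * ∑ x ∈ X, (∑ y ∈ Y, qc F (x - y)) ^ 2 := h1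
    _ ≤ X.card * (Y.card * (Fintype.card F : ℝ)) :=
        mul_le_mul_of_nonneg_left (h2.trans (h3.le.trans h4)) (Nat.cast_nonneg _)
    _ = _ := by ring

lemma adj_eq (h4 : Fintype.card F % 4 = 1) (x y : F) [Decidable ((paley F).Adj x y)] :
    (if (paley F).Adj x y then (1 : ℝ) else 0)
      = 1 / 2 - (if x = y then 1 / 2 else 0) + qc F (x - y) / 2 := by
  by_cases hxy : x = y
  · subst hxy
    simp [qc_zero]
  · have hne : x - y ≠ 0 := sub_ne_zero.mpr hxy
    rw [if_neg hxy]
    by_cases hs : IsSquare (x - y)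
    · rw [if_pos ((paley_adj h4).mpr ⟨hxy, hs⟩)]
      unfold qc
      rw [(quadraticChar_one_iff_isSquare hne).mpr hs]
      norm_num
    · rw [if_neg (fun h => hs ((paley_adj h4).mp h).2)]
      unfold qc
      rw [quadraticChar_neg_one_iff_not_isSquare.mpr hs]
      norm_num

/-- Paley graphs are bijumbled. -/
theorem paley_bij (h4 : Fintype.card F % 4 = 1) :
    Bijumbled (paley F) (1 / 2) (Real.sqrt (Fintype.card F)) := by
  classical
  intro X Y
  have hF := char_ne_two h4
  have h1 : edgePairs (paley F) X Y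
      = ∑ x ∈ X, ∑ y ∈ Y, (1 / 2 - (if x = y then 1 / 2 else 0) + qc F (x - y) / 2) := by
    unfold edgePairs
    apply Finset.sum_congr rfl
    intro x _
    rw [Finset.card_filter]
    push_cast
    apply Finset.sum_congr rfl
    intro y _
    rw [← adj_eq h4]
  have h2 : ∑ x ∈ X, ∑ y ∈ Y, (1 / 2 - (if x = y then (1 : ℝ) / 2 else 0) + qc F (x - y) / 2)
      = 1 / 2 * X.card * Y.card - (X ∩ Y).card / 2 + (∑ x ∈ X, ∑ y ∈ Y, qc F (x - y)) / 2 := by
    simp only [Finset.sum_add_distrib, Finset.sum_sub_distrib, Finset.sum_const, nsmul_eq_mul,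
      Finset.sum_ite_eq, ← Finset.sum_div]
    rw [← Finset.sum_filter]
    have e : X.filter (fun x => x ∈ Y) = X ∩ Y := by
      ext z; simp
    rw [e, sum_const, nsmul_eq_mul]
    ring
  rw [h1, h2]
  set q : ℝ := (Fintype.card F : ℝ) with hq
  set s : ℝ := (X.card : ℝ) * Y.card with hs
  set T : ℝ := ∑ x ∈ X, ∑ y ∈ Y, qc F (x - y) with hT
  have hq1 : 1 ≤ q := by
    rw [hq]
    exact_mod_cast Fintype.card_pos
  have hs0 : 0 ≤ s := by positivity
  have h3 : T ^ 2 ≤ q * s := qc_double hF X Y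
  have h4' : |T| ≤ Real.sqrt q * Real.sqrt s := by
    rw [← Real.sqrt_mul (by linarith)]
    exact Real.abs_le_sqrt h3
  have h5 : ((X ∩ Y).card : ℝ) ≤ Real.sqrt s := by
    apply Real.le_sqrt_of_sq_le
    rw [sq, hs]
    have a1 : ((X ∩ Y).card : ℝ) ≤ X.card := by exact_mod_cast card_le_card inter_subset_left
    have a2 : ((X ∩ Y).card : ℝ) ≤ Y.card := by exact_mod_cast card_le_card inter_subset_right
    exact mul_le_mul a1 a2 (Nat.cast_nonneg _) (Nat.cast_nonneg _)
  have h6 : 1 ≤ Real.sqrt q := Real.one_le_sqrt.mpr hq1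
  have h7 : Real.sqrt s ≤ Real.sqrt q * Real.sqrt s := by
    have := mul_le_mul_of_nonneg_right h6 (Real.sqrt_nonneg s)
    linarith
  have h8 : (0 : ℝ) ≤ (X ∩ Y).card := Nat.cast_nonneg _
  have h9 := abs_le.mp h4'
  rw [abs_le]
  have e : 1 / 2 * (X.card : ℝ) * Y.card - (X ∩ Y).card / 2 + T / 2
      - 1 / 2 * X.card * Y.card = T / 2 - (X ∩ Y).card / 2 := by ring
  rw [e]
  constructor <;> linarith [h9.1, h9.2]

/-- Paley graphs are self-complementary: cliques of the complement give cliques. -/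
theorem paley_self (h4 : Fintype.card F % 4 = 1) {k : ℕ} {s : Finset F}
    (hs : (paley F)ᶜ.IsNClique k s) : ∃ t : Finset F, (paley F).IsNClique k t := by
  have hF := char_ne_two h4
  obtain ⟨g, hg⟩ := quadraticChar_exists_neg_one (F := F) hF
  have hg0 : g ≠ 0 := by
    rintro rfl
    simp at hg
  refine ⟨s.map (Equiv.mulLeft₀ g hg0).toEmbedding, ?_, ?_⟩
  · intro a ha b hb hab
    rw [mem_coe, mem_map_equiv] at ha hb
    obtain ⟨x, rfl⟩ := (Equiv.mulLeft₀ g hg0).surjective a
    obtain ⟨y, rfl⟩ := (Equiv.mulLeft₀ g hg0).surjective b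
    rw [Equiv.symm_apply_apply] at ha hb
    have hxy : x ≠ y := fun h => hab (by rw [h])
    have h1 := hs.isClique (mem_coe.mpr ha) (mem_coe.mpr hb) hxy
    rw [SimpleGraph.compl_adj] at h1
    have h2 : ¬ IsSquare (x - y) := fun h => h1.2 ((paley_adj h4).mpr ⟨hxy, h⟩)
    rw [paley_adj h4]
    refine ⟨hab, ?_⟩
    have e : (Equiv.mulLeft₀ g hg0) x - (Equiv.mulLeft₀ g hg0) y = g * (x - y) := by
      simp [mul_sub]
    rw [e]
    have h3 : g * (x - y) ≠ 0 := mul_ne_zero hg0 (sub_ne_zero.mpr hxy)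
    rw [← quadraticChar_one_iff_isSquare h3, map_mul, hg,
      quadraticChar_neg_one_iff_not_isSquare.mpr h2]
    norm_num
  · rw [card_map]
    exact hs.card_eq

end

end Pool.Agent.V7H28.RM
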