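import Pool.Agent.V7H28.RM.Pseudo
import Pool.Agent.TH428.RM.Final

set_option autoImplicit false

/-!
# Application of the theorems with natural number data
-/

open Finset

namespace Pool.Agent.V7H28.RM

open H110R2 W478R Pool.Agent.TH428.RM Pool.Agent.TH502.RM Pool.Agent.W87.Restr

/-- from the check of the local game to the book theorem -/
theorem tb_of {c : CC} (hc : CCOK 1000000000 8 c)
    {p1 p2 b1 b2 A W lp1 lth1 lp2 lth2 e1 v1 e2 v2 : ℕ}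
    (h : pkchk2 1000000000 8 c p1 p2 b1 b2 A W lp1 lth1 lp2 lth2 e1 v1 e2 v2 = true) :
    TBook ((p1 : ℝ) / (1000000000 : ℕ)) ((p2 : ℝ) / (1000000000 : ℕ)) ((b1 : ℝ) / (1000000000 : ℕ))
      ((b2 : ℝ) / (1000000000 : ℕ)) ((A : ℝ) / (1000000000 : ℕ)) ((W : ℝ) / (1000000000 : ℕ)) := by
  obtain ⟨g0, a1, a2, P, dl, hcert, hPK⟩ := pkchk2_sound (by norm_num) hc h
  exact tbook2 _ _ _ _ _ _ _ _ _ _ _ _ _ _ _ _ hcert hPK

/-- the numbers of the checked local game are positive where needed -/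
lemma pk_pos {c : CC} {p1 p2 b1 b2 A W lp1 lth1 lp2 lth2 e1 v1 e2 v2 : ℕ}
    (h : pkchk2 1000000000 8 c p1 p2 b1 b2 A W lp1 lth1 lp2 lth2 e1 v1 e2 v2 = true) :
    0 < b1 ∧ 0 < b2 ∧ p1 < 1000000000 ∧ p2 < 1000000000 := by
  unfold pkchk2 at h
  simp only [Bool.and_eq_true, decide_eq_true_eq] at h
  obtain ⟨⟨⟨⟨⟨⟨⟨⟨⟨⟨⟨⟨⟨⟨⟨⟨⟨⟨h1, h2⟩, h3⟩, h4⟩, h5⟩, h6⟩, h7⟩, h8⟩, h9⟩, h10⟩, h11⟩, h12⟩, h13⟩, h14⟩,
    h15⟩, h16⟩, h17⟩, h18⟩, h19⟩ := h
  exact ⟨h5, h6, h2, h4⟩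

lemma log_d_bound : Real.log (1 / (0.499999 : ℝ)) ≤ 0.69315 := by
  have h1 : (1:ℝ) / 0.499999 = 2 * (1 / 0.999998) := by norm_num
  rw [h1, Real.log_mul (by norm_num) (by norm_num)]
  have h2 := Real.log_two_lt_d9
  have h3 : Real.log (1 / (0.999998:ℝ)) ≤ 1 / 0.999998 - 1 := Real.log_le_sub_one_of_pos (by norm_num)
  have h4 : (1:ℝ) / 0.999998 - 1 ≤ 0.0000020001 := by norm_num
  linarith

/-- pseudorandom colourings, natural number data -/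
theorem pseudo_nat {c : CC} (hc : CCOK 1000000000 8 c)
    {p1 p2 b1 b2 A W lp1 lth1 lp2 lth2 e1 v1 e2 v2 : ℕ}
    (h : pkchk2 1000000000 8 c p1 p2 b1 b2 A W lp1 lth1 lp2 lth2 e1 v1 e2 v2 = true)
    {L1 L2 M1 M2 : ℕ × ℕ} {s1 s2 c1 c2 : Bool} {t t2 B A2 : ℕ}
    (hd1 : domchk 1000000000 (Old ++ newL) L1 s1 L2 s2 t b1 A B = true)
    (hd2 : domchk 1000000000 (Old ++ newL) M1 c1 M2 c2 t2 b2 A2 W = true)
    (hp1 : 2 * p1 < 1000000000) (hp2 : 2 * p2 < 1000000000)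
    {θ θ' r : ℝ} (hθ' : θ' < θ) (hθ0 : 0 < θ) (hθ1 : θ ≤ 1) (hr : 1 < r) {v : ℝ}
    (hv : Real.exp v ≤ r) (hv0 : 0 ≤ v)
    (hnum : ((A : ℝ) + B + A2 + W) / 1000000000 <
      (θ * (1 + (b1 : ℝ) / 1000000000) + (b2 : ℝ) / 1000000000
        + (A : ℝ) / 1000000000 * (1 - θ) / 0.69315) * v)
    (Bc : ℝ) :
    ∃ K : ℕ, ∀ k : ℕ, K ≤ k → ∀ {V : Type} [Fintype V] (G : SimpleGraph V),
      r ^ k ≤ (Fintype.card V : ℝ) → Bijumbled G (1 / 2) (Bc * (Fintype.card V : ℝ) ^ θ') →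
      (∃ s : Finset V, G.IsNClique k s) ∨ (∃ s : Finset V, Gᶜ.IsNClique k s) := by
  obtain ⟨C, hC, hbd⟩ := bound
  obtain ⟨hb1, hb2, -, -⟩ := pk_pos h
  have hN : ((1000000000 : ℕ) : ℝ) = 1000000000 := by norm_num
  have hb1' : (0 : ℝ) < b1 := by exact_mod_cast hb1
  have hb2' : (0 : ℝ) < b2 := by exact_mod_cast hb2
  have hp1' : 2 * (p1 : ℝ) < 1000000000 := by exact_mod_cast hp1
  have hp2' : 2 * (p2 : ℝ) < 1000000000 := by exact_mod_cast hp2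
  have hA0 : (0 : ℝ) ≤ A := Nat.cast_nonneg _
  have hL : 0 < Real.log (1 / (0.499999 : ℝ)) := Real.log_pos (by norm_num)
  refine pseudo_main hC hbd (by positivity) (by positivity) (by positivity) (tb_of hc h)
    (domchk_sound (by norm_num) hd1) (domchk_sound (by norm_num) hd2) ?_ ?_ hθ' hθ0 hθ1
    (d := 0.499999) (by norm_num) (by norm_num) hr ?_ Bc
  · rw [hN, div_lt_iff₀ (by norm_num)]; linarith
  · rw [hN, div_lt_iff₀ (by norm_num)]; linarith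
  · rw [hN]
    have e1 : (A : ℝ) / 1000000000 + (B : ℝ) / 1000000000 + (A2 : ℝ) / 1000000000
        + (W : ℝ) / 1000000000 = ((A : ℝ) + B + A2 + W) / 1000000000 := by ring
    rw [e1]
    refine hnum.trans_le ?_
    have h1 : (A : ℝ) / 1000000000 * (1 - θ) / 0.69315
        ≤ (A : ℝ) / 1000000000 * (1 - θ) / Real.log (1 / (0.499999 : ℝ)) :=
      div_le_div_of_nonneg_left (mul_nonneg (by positivity) (by linarith)) hL log_d_bound
    have h2 : v ≤ Real.log r := by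
      rw [Real.le_log_iff_exp_le (by linarith)]
      exact hv
    have h3 : 0 ≤ θ * (1 + (b1 : ℝ) / 1000000000) + (b2 : ℝ) / 1000000000
        + (A : ℝ) / 1000000000 * (1 - θ) / 0.69315 := by
      have : 0 ≤ (A : ℝ) / 1000000000 * (1 - θ) / 0.69315 :=
        div_nonneg (mul_nonneg (by positivity) (by linarith)) (by norm_num)
      positivity
    exact mul_le_mul (by linarith) h2 hv0 (by linarith)

end Pool.Agent.V7H28.RM
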