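import Pool.Agent.V7H28.RM.Pairs
import Pool.Agent.V7H28.RM.Apply

set_option autoImplicit false

/-!
# Unbalanced pairs with natural number data
-/

open Finset

namespace Pool.Agent.V7H28.RM

open H110R2 W478R Pool.Agent.TH428.RM Pool.Agent.TH502.RM

/-- all lines -/
noncomputable def LsA : List (ℝ × ℝ) := (Old ++ newL).map (rl 1000000000)

/-- a cell of the red degrees into `X` -/
theorem cell_nat {Cb : ℝ} (hC : 1 ≤ Cb) (hbd : ∀ k l : ℕ, BdAt LsA Cb k l) {M : ℝ} (hM : 1 ≤ M)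
    {P q q' y : ℕ} {c : CC} (hc : CCOK 1000000000 8 c)
    {p1 p2 b1 b2 A W lp1 lth1 lp2 lth2 e1 v1 e2 v2 : ℕ}
    {L1 L2 M1 M2 : ℕ × ℕ} {s1 s2 c1 c2 : Bool} {t t2 B A2 : ℕ}
    (h : pkchk2 1000000000 8 c p1 p2 b1 b2 A W lp1 lth1 lp2 lth2 e1 v1 e2 v2 = true)
    (hd1 : domchk 1000000000 (Old ++ newL) L1 s1 L2 s2 t b1 A B = true)
    (hd2 : domchk 1000000000 (Old ++ newL) M1 c1 M2 c2 t2 b2 A2 W = true)
    (h1 : p1 < P ∨ p1 < q) (h2 : p2 + q' < 1000000000)
    (h3 : (A + B + A2 + W) * 1000000000 < (1000000000 + b1 + b2) * y)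
    (hnext : Sm ((y : ℝ) / 1000000000) M ((P : ℝ) / 1000000000) ((q' : ℝ) / 1000000000)) :
    Sm ((y : ℝ) / 1000000000) M ((P : ℝ) / 1000000000) ((q : ℝ) / 1000000000) := by
  obtain ⟨hb1, hb2, -, -⟩ := pk_pos h
  have hN : ((1000000000 : ℕ) : ℝ) = 1000000000 := by norm_num
  have hb1' : (0 : ℝ) < b1 := by exact_mod_cast hb1
  have hb2' : (0 : ℝ) < b2 := by exact_mod_cast hb2
  have hTB := tb_of hc h
  have hD1 := domchk_sound (by norm_num) hd1
  have hD2 := domchk_sound (by norm_num) hd2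
  rw [hN] at hTB hD1 hD2
  have hw : Win LsA ((y : ℝ) / 1000000000) ((p1 : ℝ) / 1000000000) ((p2 : ℝ) / 1000000000) := by
    refine ⟨_, _, _, _, _, _, by positivity, by positivity, hTB, hD1, hD2, ?_⟩
    have h3' : ((A : ℝ) + B + A2 + W) * 1000000000 < (1000000000 + b1 + b2) * y := by
      exact_mod_cast h3
    have e1 : (A : ℝ) / 1000000000 + (B : ℝ) / 1000000000 + (A2 : ℝ) / 1000000000
        + (W : ℝ) / 1000000000 = (((A : ℝ) + B + A2 + W) * 1000000000)
          / (1000000000 * 1000000000) := by ring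
    have e2 : (1 + (b1 : ℝ) / 1000000000 + (b2 : ℝ) / 1000000000) * ((y : ℝ) / 1000000000)
        = ((1000000000 + b1 + b2) * y) / (1000000000 * 1000000000) := by ring
    rw [e1, e2]
    exact div_lt_div_of_pos_right h3' (by norm_num)
  refine sm_cell hC hbd hM hw ?_ ?_ hnext
  · rcases h1 with h1 | h1
    · left
      apply div_lt_div_of_pos_right _ (by norm_num)
      exact_mod_cast h1
    · right
      apply div_lt_div_of_pos_right _ (by norm_num)
      exact_mod_cast h1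
  · have h2' : (p2 : ℝ) + q' < 1000000000 := by exact_mod_cast h2
    have : (p2 : ℝ) / 1000000000 + (q' : ℝ) / 1000000000 < 1 := by
      rw [← add_div, div_lt_one (by norm_num)]
      exact h2'
    linarith

/-- the one-reservoir inequality from natural number data -/
theorem win1_nat {y : ℕ} {c : CC} (hc : CCOK 1000000000 8 c)
    {p1 p2 b1 b2 A W lp1 lth1 lp2 lth2 e1 v1 e2 v2 : ℕ}
    {L1 L2 : ℕ × ℕ} {s1 s2 : Bool} {t B : ℕ}
    (h : pkchk2 1000000000 8 c p1 p2 b1 b2 A W lp1 lth1 lp2 lth2 e1 v1 e2 v2 = true)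
    (hd1 : domchk 1000000000 (Old ++ newL) L1 s1 L2 s2 t b1 A B = true)
    (h3 : (A + B + W) * 1000000000 < (1000000000 + b1) * y) :
    Win1 LsA ((y : ℝ) / 1000000000) ((p1 : ℝ) / 1000000000) := by
  obtain ⟨hb1, hb2, -, hp2⟩ := pk_pos h
  have hN : ((1000000000 : ℕ) : ℝ) = 1000000000 := by norm_num
  have hb1' : (0 : ℝ) < b1 := by exact_mod_cast hb1
  have hp2' : (p2 : ℝ) < 1000000000 := by exact_mod_cast hp2
  have hTB := tb_of hc h
  have hD1 := domchk_sound (by norm_num) hd1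
  rw [hN] at hTB hD1
  refine ⟨_, _, _, _, _, _, ?_, by positivity, by positivity, hTB, hD1, ?_⟩
  · rw [div_lt_one (by norm_num)]
    exact hp2'
  · have h3' : ((A : ℝ) + B + W) * 1000000000 < (1000000000 + b1) * y := by
      exact_mod_cast h3
    have e1 : (A : ℝ) / 1000000000 + (B : ℝ) / 1000000000
        + (W : ℝ) / 1000000000 = (((A : ℝ) + B + W) * 1000000000)
          / (1000000000 * 1000000000) := by ring
    have e2 : (1 + (b1 : ℝ) / 1000000000) * ((y : ℝ) / 1000000000)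
        = ((1000000000 + b1) * y) / (1000000000 * 1000000000) := by ring
    rw [e1, e2]
    exact div_lt_div_of_pos_right h3' (by norm_num)

/-- the last cell: `X` as the only reservoir -/
theorem lastX_nat {Cb : ℝ} (hC : 1 ≤ Cb) (hbd : ∀ k l : ℕ, BdAt LsA Cb k l) {M : ℝ} (hM : 1 ≤ M)
    {P q y p1 : ℕ} (hw : Win1 LsA ((y : ℝ) / 1000000000) ((p1 : ℝ) / 1000000000)) (hy : 0 < y)
    (h1 : p1 < q) :
    Sm ((y : ℝ) / 1000000000) M ((P : ℝ) / 1000000000) ((q : ℝ) / 1000000000) := by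
  have hy' : (0 : ℝ) < y := by exact_mod_cast hy
  refine sm_lastX hC hbd (by positivity) hM hw ?_
  apply div_lt_div_of_pos_right _ (by norm_num)
  exact_mod_cast h1

/-- `Y` as the only reservoir -/
theorem lastY_nat {Cb : ℝ} (hC : 1 ≤ Cb) (hbd : ∀ k l : ℕ, BdAt LsA Cb k l) {M : ℝ} (hM : 1 ≤ M)
    {P q y p1 : ℕ} (hw : Win1 LsA ((y : ℝ) / 1000000000) ((p1 : ℝ) / 1000000000)) (hy : 0 < y)
    (h1 : p1 < P) :
    Sm ((y : ℝ) / 1000000000) M ((P : ℝ) / 1000000000) ((q : ℝ) / 1000000000) := by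
  have hy' : (0 : ℝ) < y := by exact_mod_cast hy
  refine sm_lastY hC hbd (by positivity) hM hw ?_
  apply div_lt_div_of_pos_right _ (by norm_num)
  exact_mod_cast h1

/-- one row of the table -/
def RowA (p c : ℝ) : Prop :=
  ∃ K : ℕ, ∀ k : ℕ, K ≤ k → ∀ (V : Type) (G : SimpleGraph V) (X Y : Finset V),
      c ^ k ≤ (X.card : ℝ) → c ^ k ≤ (Y.card : ℝ) →
      p * X.card * Y.card ≤ (redPairs G X Y : ℝ) →
      (∃ s : Finset V, G.IsNClique k s) ∨ (∃ s : Finset V, Gᶜ.IsNClique k s)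

theorem rowA_nat {P y a b : ℕ} {p c : ℝ} (hy : 0 < y) (hb : expU 1000000000 y a b = true)
    (hab : (a : ℝ) / b < c) (hP : (P : ℝ) / 1000000000 = p - 1 / 100000)
    (hsm : ∀ Cb : ℝ, 1 ≤ Cb → (∀ k l : ℕ, BdAt LsA Cb k l) → ∀ M : ℝ, 1 ≤ M →
      Sm ((y : ℝ) / 1000000000) M ((P : ℝ) / 1000000000) (((0 : ℕ) : ℝ) / 1000000000)) :
    RowA p c := by
  obtain ⟨C, hC, hbd⟩ := bound
  have hN : ((1000000000 : ℕ) : ℝ) = 1000000000 := by norm_num
  have hy' : (0 : ℝ) < y := by exact_mod_cast hy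
  have h1 := expU_sound (by norm_num) hb
  rw [hN] at h1
  refine pairs_main (L := (y : ℝ) / 1000000000) (ε := 1 / 100000)
    (h1.trans_lt hab) (by norm_num) (by norm_num) ?_
  intro M hM
  have h := hsm C hC hbd M hM
  rw [hP, Nat.cast_zero, zero_div] at h
  exact h

end Pool.Agent.V7H28.RM
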