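import Pool.Agent.TH428.RM.NC

set_option autoImplicit false

/-!
# A certificate, checked by the kernel
-/

namespace Pool.Agent.V7H28.RM

open Pool.Agent.TH428.RM

/-- data of the certificate -/
def nd1 : NC :=
  ⟨1000000000000000, 1024, 1000, 4096, 999535295409563, 408244991387581, 784372783048613, 5, 1000, 1642, 1032, 327, 238,
  [(588057229543874, 1, 1), (11787702055379, 3, 0), (80425078003643, 2, 1), (126089607905021, 1, 2), (139, 0, 3), (401461, 4, 0), (14605665717771, 3, 1), (1727861, 2, 2), (3482058739217, 1, 3), (45, 0, 4), (43355872594, 5, 0), (290047352884, 4, 1), (478431039727, 3, 2), (225147585302, 2, 3), (20221566881, 1, 4), (1980776, 0, 5)]⟩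

set_option maxRecDepth 100000 in
theorem nd1_q00 : qchk (mkq nd1 false false) 23 (nd1.R * nd1.D) (nd1.R * nd1.D) (nd1.R * nd1.D) = true := by
  decide +kernel

set_option maxRecDepth 100000 in
theorem nd1_q01 : qchk (mkq nd1 false true) 23 (nd1.R * nd1.D) (nd1.R * nd1.D) (nd1.R * nd1.D) = true := by
  decide +kernel

set_option maxRecDepth 100000 in
theorem nd1_q10 : qchk (mkq nd1 true false) 23 (nd1.R * nd1.D) (nd1.R * nd1.D) (nd1.R * nd1.D) = true := by
  decide +kernel

set_option maxRecDepth 100000 in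
theorem nd1_q11 : qchk (mkq nd1 true true) 23 (nd1.R * nd1.D) (nd1.R * nd1.D) (nd1.R * nd1.D) = true := by
  decide +kernel

theorem nd1_ok : nd1.ok = true := by decide +kernel

theorem nd1_cert : Cert2 ((nd1.T1 : ℝ) / nd1.M) ((nd1.T2 : ℝ) / nd1.M) ((nd1.wR : ℝ) / nd1.wd)
    ((nd1.wB : ℝ) / nd1.wd) ((nd1.g0 : ℝ) / nd1.K) ((nd1.a1 : ℝ) / nd1.K) ((nd1.a2 : ℝ) / nd1.K) nd1.rP
    ((nd1.dl : ℝ) / nd1.K) :=
  cert_of nd1_ok nd1_q00 nd1_q01 nd1_q10 nd1_q11

end Pool.Agent.V7H28.RM
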