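import Pool.Agent.TH428.RM.NC

set_option autoImplicit false

/-!
# A certificate, checked by the kernel
-/

namespace Pool.Agent.V7H28.RM

open Pool.Agent.TH428.RM

/-- data of the certificate -/
def nd2 : NC :=
  ⟨1000000000000000, 1024, 1000, 4096, 1000062912433677, 496084619610795, 751874831201756, 5, 1000, 1358, 1046, 365, 306,
  [(717739308969783, 1, 1), (5060145894388, 3, 0), (121551938471463, 2, 1), (143434361925019, 1, 2), (5, 0, 3), (202932437, 4, 0), (22394458915934, 3, 1), (878566365, 2, 2), (3927311341896, 1, 3), (3, 0, 4), (182221626431, 5, 0), (773169482859, 4, 1), (920732885945, 3, 2), (332385283372, 2, 3), (23037745514, 1, 4), (30524, 0, 5)]⟩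

set_option maxRecDepth 100000 in
theorem nd2_q00 : qchk (mkq nd2 false false) 23 (nd2.R * nd2.D) (nd2.R * nd2.D) (nd2.R * nd2.D) = true := by
  decide +kernel

set_option maxRecDepth 100000 in
theorem nd2_q01 : qchk (mkq nd2 false true) 23 (nd2.R * nd2.D) (nd2.R * nd2.D) (nd2.R * nd2.D) = true := by
  decide +kernel

set_option maxRecDepth 100000 in
theorem nd2_q10 : qchk (mkq nd2 true false) 23 (nd2.R * nd2.D) (nd2.R * nd2.D) (nd2.R * nd2.D) = true := by
  decide +kernel

set_option maxRecDepth 100000 in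
theorem nd2_q11 : qchk (mkq nd2 true true) 23 (nd2.R * nd2.D) (nd2.R * nd2.D) (nd2.R * nd2.D) = true := by
  decide +kernel

theorem nd2_ok : nd2.ok = true := by decide +kernel

theorem nd2_cert : Cert2 ((nd2.T1 : ℝ) / nd2.M) ((nd2.T2 : ℝ) / nd2.M) ((nd2.wR : ℝ) / nd2.wd)
    ((nd2.wB : ℝ) / nd2.wd) ((nd2.g0 : ℝ) / nd2.K) ((nd2.a1 : ℝ) / nd2.K) ((nd2.a2 : ℝ) / nd2.K) nd2.rP
    ((nd2.dl : ℝ) / nd2.K) :=
  cert_of nd2_ok nd2_q00 nd2_q01 nd2_q10 nd2_q11

end Pool.Agent.V7H28.RM
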