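import Pool.Agent.TH428.RM.NC

set_option autoImplicit false

/-!
# A certificate, checked by the kernel
-/

namespace Pool.Agent.V7H28.RM

open Pool.Agent.TH428.RM

/-- data of the certificate -/
def nd3 : NC :=
  ⟨1000000000000000, 1024, 1000, 4096, 1000316880681110, 557348543359056, 680296370911560, 5, 1000, 1234, 1089, 358, 329,
  [(731610001434409, 1, 1), (4363508, 3, 0), (139274958973789, 2, 1), (140366736381989, 1, 2), (1479, 0, 3), (1076191, 4, 0), (7178734363018, 3, 1), (55657799, 2, 2), (3806576330267, 1, 3), (822, 0, 4), (61628479338, 5, 0), (329562531832, 4, 1), (493341107540, 3, 2), (228839832289, 2, 3), (21817725237, 1, 4), (9287854, 0, 5)]⟩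

set_option maxRecDepth 100000 in
theorem nd3_q00 : qchk (mkq nd3 false false) 23 (nd3.R * nd3.D) (nd3.R * nd3.D) (nd3.R * nd3.D) = true := by
  decide +kernel

set_option maxRecDepth 100000 in
theorem nd3_q01 : qchk (mkq nd3 false true) 23 (nd3.R * nd3.D) (nd3.R * nd3.D) (nd3.R * nd3.D) = true := by
  decide +kernel

set_option maxRecDepth 100000 in
theorem nd3_q10 : qchk (mkq nd3 true false) 23 (nd3.R * nd3.D) (nd3.R * nd3.D) (nd3.R * nd3.D) = true := by
  decide +kernel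

set_option maxRecDepth 100000 in
theorem nd3_q11 : qchk (mkq nd3 true true) 23 (nd3.R * nd3.D) (nd3.R * nd3.D) (nd3.R * nd3.D) = true := by
  decide +kernel

theorem nd3_ok : nd3.ok = true := by decide +kernel

theorem nd3_cert : Cert2 ((nd3.T1 : ℝ) / nd3.M) ((nd3.T2 : ℝ) / nd3.M) ((nd3.wR : ℝ) / nd3.wd)
    ((nd3.wB : ℝ) / nd3.wd) ((nd3.g0 : ℝ) / nd3.K) ((nd3.a1 : ℝ) / nd3.K) ((nd3.a2 : ℝ) / nd3.K) nd3.rP
    ((nd3.dl : ℝ) / nd3.K) :=
  cert_of nd3_ok nd3_q00 nd3_q01 nd3_q10 nd3_q11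

end Pool.Agent.V7H28.RM
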