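import Pool.Agent.TH428.RM.Final
import Pool.Agent.V7H28.RM.D1
import Pool.Agent.V7H28.RM.D2
import Pool.Agent.V7H28.RM.D3

set_option autoImplicit false

/-!
# Constants of the new certificates
-/

namespace Pool.Agent.V7H28.RM

open W478R H110R2 Pool.Agent.TH502.RM Pool.Agent.TH428.RM

/-- constants of the certificate `nd1` -/
def cd1 : CC := ⟨327000000, 238000000, 396009949, 271808723, 1642000000, 1032000000, 999416499⟩

lemma cd1_ok : CCOK 1000000000 8 cd1 where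
  hT10 := by decide
  hT1N := by decide
  hT20 := by decide
  hT2N := by decide
  hl1 := by decide +kernel
  hl2 := by decide +kernel
  hcert := by
    have h := nd1_cert
    have e1 : ((nd1.T1 : ℕ) : ℝ) / (nd1.M : ℕ) = ((cd1.T1 : ℕ) : ℝ) / ((1000000000 : ℕ) : ℝ) := by
      norm_num [nd1, cd1]
    have e2 : ((nd1.T2 : ℕ) : ℝ) / (nd1.M : ℕ) = ((cd1.T2 : ℕ) : ℝ) / ((1000000000 : ℕ) : ℝ) := by
      norm_num [nd1, cd1]
    have e3 : ((nd1.wR : ℕ) : ℝ) / (nd1.wd : ℕ) = ((cd1.wR : ℕ) : ℝ) / ((1000000000 : ℕ) : ℝ) := by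
      norm_num [nd1, cd1]
    have e4 : ((nd1.wB : ℕ) : ℝ) / (nd1.wd : ℕ) = ((cd1.wB : ℕ) : ℝ) / ((1000000000 : ℕ) : ℝ) := by
      norm_num [nd1, cd1]
    rw [e1, e2, e3, e4] at h
    refine ⟨_, _, _, _, _, h, ?_⟩
    have h1 := C8c_eight
    have h2 : ((cd1.G : ℕ) : ℝ) / ((1000000000 : ℕ) : ℝ) ≤
        ((nd1.g0 : ℕ) : ℝ) / (nd1.K : ℕ) - 2 * (((nd1.dl : ℕ) : ℝ) / (nd1.K : ℕ)) * 11879600000 := by
      norm_num [nd1, cd1]
    refine h2.trans ?_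
    have h3 : (0 : ℝ) ≤ 2 * (((nd1.dl : ℕ) : ℝ) / (nd1.K : ℕ)) := by positivity
    have h4 := mul_le_mul_of_nonneg_left h1 h3
    linarith

/-- constants of the certificate `nd2` -/
def cd2 : CC := ⟨365000000, 306000000, 454130280, 365283318, 1358000000, 1046000000, 999944116⟩

lemma cd2_ok : CCOK 1000000000 8 cd2 where
  hT10 := by decide
  hT1N := by decide
  hT20 := by decide
  hT2N := by decide
  hl1 := by decide +kernel
  hl2 := by decide +kernel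
  hcert := by
    have h := nd2_cert
    have e1 : ((nd2.T1 : ℕ) : ℝ) / (nd2.M : ℕ) = ((cd2.T1 : ℕ) : ℝ) / ((1000000000 : ℕ) : ℝ) := by
      norm_num [nd2, cd2]
    have e2 : ((nd2.T2 : ℕ) : ℝ) / (nd2.M : ℕ) = ((cd2.T2 : ℕ) : ℝ) / ((1000000000 : ℕ) : ℝ) := by
      norm_num [nd2, cd2]
    have e3 : ((nd2.wR : ℕ) : ℝ) / (nd2.wd : ℕ) = ((cd2.wR : ℕ) : ℝ) / ((1000000000 : ℕ) : ℝ) := by
      norm_num [nd2, cd2]
    have e4 : ((nd2.wB : ℕ) : ℝ) / (nd2.wd : ℕ) = ((cd2.wB : ℕ) : ℝ) / ((1000000000 : ℕ) : ℝ) := by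
      norm_num [nd2, cd2]
    rw [e1, e2, e3, e4] at h
    refine ⟨_, _, _, _, _, h, ?_⟩
    have h1 := C8c_eight
    have h2 : ((cd2.G : ℕ) : ℝ) / ((1000000000 : ℕ) : ℝ) ≤
        ((nd2.g0 : ℕ) : ℝ) / (nd2.K : ℕ) - 2 * (((nd2.dl : ℕ) : ℝ) / (nd2.K : ℕ)) * 11879600000 := by
      norm_num [nd2, cd2]
    refine h2.trans ?_
    have h3 : (0 : ℝ) ≤ 2 * (((nd2.dl : ℕ) : ℝ) / (nd2.K : ℕ)) := by positivity
    have h4 := mul_le_mul_of_nonneg_left h1 h3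
    linarith

/-- constants of the certificate `nd3` -/
def cd3 : CC := ⟨358000000, 329000000, 443166975, 398986141, 1234000000, 1089000000, 1000198084⟩

lemma cd3_ok : CCOK 1000000000 8 cd3 where
  hT10 := by decide
  hT1N := by decide
  hT20 := by decide
  hT2N := by decide
  hl1 := by decide +kernel
  hl2 := by decide +kernel
  hcert := by
    have h := nd3_cert
    have e1 : ((nd3.T1 : ℕ) : ℝ) / (nd3.M : ℕ) = ((cd3.T1 : ℕ) : ℝ) / ((1000000000 : ℕ) : ℝ) := by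
      norm_num [nd3, cd3]
    have e2 : ((nd3.T2 : ℕ) : ℝ) / (nd3.M : ℕ) = ((cd3.T2 : ℕ) : ℝ) / ((1000000000 : ℕ) : ℝ) := by
      norm_num [nd3, cd3]
    have e3 : ((nd3.wR : ℕ) : ℝ) / (nd3.wd : ℕ) = ((cd3.wR : ℕ) : ℝ) / ((1000000000 : ℕ) : ℝ) := by
      norm_num [nd3, cd3]
    have e4 : ((nd3.wB : ℕ) : ℝ) / (nd3.wd : ℕ) = ((cd3.wB : ℕ) : ℝ) / ((1000000000 : ℕ) : ℝ) := by
      norm_num [nd3, cd3]
    rw [e1, e2, e3, e4] at h
    refine ⟨_, _, _, _, _, h, ?_⟩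
    have h1 := C8c_eight
    have h2 : ((cd3.G : ℕ) : ℝ) / ((1000000000 : ℕ) : ℝ) ≤
        ((nd3.g0 : ℕ) : ℝ) / (nd3.K : ℕ) - 2 * (((nd3.dl : ℕ) : ℝ) / (nd3.K : ℕ)) * 11879600000 := by
      norm_num [nd3, cd3]
    refine h2.trans ?_
    have h3 : (0 : ℝ) ≤ 2 * (((nd3.dl : ℕ) : ℝ) / (nd3.K : ℕ)) := by positivity
    have h4 := mul_le_mul_of_nonneg_left h1 h3
    linarith

end Pool.Agent.V7H28.RM
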