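import Pool.Agent.TH428.RM.NC

set_option autoImplicit false

/-!
# A certificate, checked by the kernel
-/

namespace Pool.Agent.V7H28.RM

open Pool.Agent.TH428.RM

/-- data of the certificate -/
def nd4 : NC :=
  ⟨1000000000000000, 1024, 1000, 4096, 1000064568998444, 625359952193817, 729833535737095, 5, 1000, 1139, 1057, 440, 418,
  [(893000699310581, 1, 1), (179720049, 3, 0), (190247935074979, 2, 1), (192030376614105, 1, 2), (1290, 0, 3), (100028471, 4, 0), (27605411540757, 3, 1), (104784586, 2, 2), (5641308360457, 1, 3), (1038, 0, 4), (191447485799, 5, 0), (791391420958, 4, 1), (1031182532807, 3, 2), (426854266682, 2, 3), (32961102253, 1, 4), (33223682, 0, 5)]⟩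

set_option maxRecDepth 100000 in
theorem nd4_q00 : qchk (mkq nd4 false false) 23 (nd4.R * nd4.D) (nd4.R * nd4.D) (nd4.R * nd4.D) = true := by
  decide +kernel

set_option maxRecDepth 100000 in
theorem nd4_q01 : qchk (mkq nd4 false true) 23 (nd4.R * nd4.D) (nd4.R * nd4.D) (nd4.R * nd4.D) = true := by
  decide +kernel

set_option maxRecDepth 100000 in
theorem nd4_q10 : qchk (mkq nd4 true false) 23 (nd4.R * nd4.D) (nd4.R * nd4.D) (nd4.R * nd4.D) = true := by
  decide +kernel

set_option maxRecDepth 100000 in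
theorem nd4_q11 : qchk (mkq nd4 true true) 23 (nd4.R * nd4.D) (nd4.R * nd4.D) (nd4.R * nd4.D) = true := by
  decide +kernel

theorem nd4_ok : nd4.ok = true := by decide +kernel

theorem nd4_cert : Cert2 ((nd4.T1 : ℝ) / nd4.M) ((nd4.T2 : ℝ) / nd4.M) ((nd4.wR : ℝ) / nd4.wd)
    ((nd4.wB : ℝ) / nd4.wd) ((nd4.g0 : ℝ) / nd4.K) ((nd4.a1 : ℝ) / nd4.K) ((nd4.a2 : ℝ) / nd4.K) nd4.rP
    ((nd4.dl : ℝ) / nd4.K) :=
  cert_of nd4_ok nd4_q00 nd4_q01 nd4_q10 nd4_q11

end Pool.Agent.V7H28.RM
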