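import Pool.Agent.TH428.RM.NC

set_option autoImplicit false

/-!
# A certificate, checked by the kernel
-/

namespace Pool.Agent.V7H28.RM

open Pool.Agent.TH428.RM

/-- data of the certificate -/
def nd5 : NC :=
  ⟨1000000000000000, 1024, 1000, 4096, 999596608785452, 686962698328061, 805763138070822, 5, 1000, 1083, 1025, 545, 525,
  [(1094997420777636, 1, 1), (16288775824, 3, 0), (270834341773580, 2, 1), (266550055828481, 1, 2), (1890, 0, 3), (437540632, 4, 0), (40457337528714, 3, 1), (435838918, 2, 2), (8900833736359, 1, 3), (2339, 0, 4), (169120342498, 5, 0), (677416220153, 4, 1), (1039309165374, 3, 2), (534201720349, 2, 3), (53511187672, 1, 4), (285797069, 0, 5)]⟩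

set_option maxRecDepth 100000 in
theorem nd5_q00 : qchk (mkq nd5 false false) 23 (nd5.R * nd5.D) (nd5.R * nd5.D) (nd5.R * nd5.D) = true := by
  decide +kernel

set_option maxRecDepth 100000 in
theorem nd5_q01 : qchk (mkq nd5 false true) 23 (nd5.R * nd5.D) (nd5.R * nd5.D) (nd5.R * nd5.D) = true := by
  decide +kernel

set_option maxRecDepth 100000 in
theorem nd5_q10 : qchk (mkq nd5 true false) 23 (nd5.R * nd5.D) (nd5.R * nd5.D) (nd5.R * nd5.D) = true := by
  decide +kernel

set_option maxRecDepth 100000 in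
theorem nd5_q11 : qchk (mkq nd5 true true) 23 (nd5.R * nd5.D) (nd5.R * nd5.D) (nd5.R * nd5.D) = true := by
  decide +kernel

theorem nd5_ok : nd5.ok = true := by decide +kernel

theorem nd5_cert : Cert2 ((nd5.T1 : ℝ) / nd5.M) ((nd5.T2 : ℝ) / nd5.M) ((nd5.wR : ℝ) / nd5.wd)
    ((nd5.wB : ℝ) / nd5.wd) ((nd5.g0 : ℝ) / nd5.K) ((nd5.a1 : ℝ) / nd5.K) ((nd5.a2 : ℝ) / nd5.K) nd5.rP
    ((nd5.dl : ℝ) / nd5.K) :=
  cert_of nd5_ok nd5_q00 nd5_q01 nd5_q10 nd5_q11

end Pool.Agent.V7H28.RM
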