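import Pool.Agent.TH428.RM.Final
import Pool.Agent.V7H28.RM.D4
import Pool.Agent.V7H28.RM.D5

set_option autoImplicit false

/-!
# Constants of the new certificates
-/

namespace Pool.Agent.V7H28.RM

open W478R H110R2 Pool.Agent.TH502.RM Pool.Agent.TH428.RM

/-- constants of the certificate `nd4` -/
def cd4 : CC := ⟨440000000, 418000000, 579818495, 541284831, 1139000000, 1057000000, 999945772⟩

lemma cd4_ok : CCOK 1000000000 8 cd4 where
  hT10 := by decide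
  hT1N := by decide
  hT20 := by decide
  hT2N := by decide
  hl1 := by decide +kernel
  hl2 := by decide +kernel
  hcert := by
    have h := nd4_cert
    have e1 : ((nd4.T1 : ℕ) : ℝ) / (nd4.M : ℕ) = ((cd4.T1 : ℕ) : ℝ) / ((1000000000 : ℕ) : ℝ) := by
      norm_num [nd4, cd4]
    have e2 : ((nd4.T2 : ℕ) : ℝ) / (nd4.M : ℕ) = ((cd4.T2 : ℕ) : ℝ) / ((1000000000 : ℕ) : ℝ) := by
      norm_num [nd4, cd4]
    have e3 : ((nd4.wR : ℕ) : ℝ) / (nd4.wd : ℕ) = ((cd4.wR : ℕ) : ℝ) / ((1000000000 : ℕ) : ℝ) := by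
      norm_num [nd4, cd4]
    have e4 : ((nd4.wB : ℕ) : ℝ) / (nd4.wd : ℕ) = ((cd4.wB : ℕ) : ℝ) / ((1000000000 : ℕ) : ℝ) := by
      norm_num [nd4, cd4]
    rw [e1, e2, e3, e4] at h
    refine ⟨_, _, _, _, _, h, ?_⟩
    have h1 := C8c_eight
    have h2 : ((cd4.G : ℕ) : ℝ) / ((1000000000 : ℕ) : ℝ) ≤
        ((nd4.g0 : ℕ) : ℝ) / (nd4.K : ℕ) - 2 * (((nd4.dl : ℕ) : ℝ) / (nd4.K : ℕ)) * 11879600000 := by
      norm_num [nd4, cd4]
    refine h2.trans ?_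
    have h3 : (0 : ℝ) ≤ 2 * (((nd4.dl : ℕ) : ℝ) / (nd4.K : ℕ)) := by positivity
    have h4 := mul_le_mul_of_nonneg_left h1 h3
    linarith

/-- constants of the certificate `nd5` -/
def cd5 : CC := ⟨545000000, 525000000, 787457859, 744440474, 1083000000, 1025000000, 999477812⟩

lemma cd5_ok : CCOK 1000000000 8 cd5 where
  hT10 := by decide
  hT1N := by decide
  hT20 := by decide
  hT2N := by decide
  hl1 := by decide +kernel
  hl2 := by decide +kernel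
  hcert := by
    have h := nd5_cert
    have e1 : ((nd5.T1 : ℕ) : ℝ) / (nd5.M : ℕ) = ((cd5.T1 : ℕ) : ℝ) / ((1000000000 : ℕ) : ℝ) := by
      norm_num [nd5, cd5]
    have e2 : ((nd5.T2 : ℕ) : ℝ) / (nd5.M : ℕ) = ((cd5.T2 : ℕ) : ℝ) / ((1000000000 : ℕ) : ℝ) := by
      norm_num [nd5, cd5]
    have e3 : ((nd5.wR : ℕ) : ℝ) / (nd5.wd : ℕ) = ((cd5.wR : ℕ) : ℝ) / ((1000000000 : ℕ) : ℝ) := by
      norm_num [nd5, cd5]
    have e4 : ((nd5.wB : ℕ) : ℝ) / (nd5.wd : ℕ) = ((cd5.wB : ℕ) : ℝ) / ((1000000000 : ℕ) : ℝ) := by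
      norm_num [nd5, cd5]
    rw [e1, e2, e3, e4] at h
    refine ⟨_, _, _, _, _, h, ?_⟩
    have h1 := C8c_eight
    have h2 : ((cd5.G : ℕ) : ℝ) / ((1000000000 : ℕ) : ℝ) ≤
        ((nd5.g0 : ℕ) : ℝ) / (nd5.K : ℕ) - 2 * (((nd5.dl : ℕ) : ℝ) / (nd5.K : ℕ)) * 11879600000 := by
      norm_num [nd5, cd5]
    refine h2.trans ?_
    have h3 : (0 : ℝ) ≤ 2 * (((nd5.dl : ℕ) : ℝ) / (nd5.K : ℕ)) := by positivity
    have h4 := mul_le_mul_of_nonneg_left h1 h3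
    linarith

end Pool.Agent.V7H28.RM
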