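import Pool.Agent.V7H28.RM.Shot

set_option autoImplicit false

/-!
# Pairs of sets with unbalanced density
-/

open Finset Filter

namespace Pool.Agent.V7H28.RM

open H110R2 W478R Pool.Agent.TH428.RM Pool.Agent.TH502.RM

/-- The two-reservoir inequality is violated by sets of size `exp (L k)`, for red degree above `p1`
and blue degree above `p2`. -/
def Win (Ls : List (ℝ × ℝ)) (L p1 p2 : ℝ) : Prop :=
  ∃ b1 b2 A B W A2 : ℝ, 0 < b1 ∧ 0 < b2 ∧ TBook p1 p2 b1 b2 A W ∧ Dom Ls b1 A B ∧
    Dom Ls b2 A2 W ∧ A + B + A2 + W < (1 + b1 + b2) * L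

/-- The one-reservoir inequality is violated by sets of size `exp (L k)`, for red degree above
`p1`. -/
def Win1 (Ls : List (ℝ × ℝ)) (L p1 : ℝ) : Prop :=
  ∃ p2 b1 b2 A B W : ℝ, p2 < 1 ∧ 0 < b1 ∧ 0 ≤ W ∧ TBook p1 p2 b1 b2 A W ∧ Dom Ls b1 A B ∧
    A + B + W < (1 + b1) * L

/-- few vertices of `X` have red degree at least `p |Y|` into `Y` and at least `q |X|` into `X` -/
def Sm (L M p q : ℝ) : Prop :=
  ∃ η C : ℝ, 0 < η ∧ η ≤ L ∧ 0 < C ∧ ∀ (V : Type) [DecidableEq V] (G : SimpleGraph V) (k : ℕ)
    (X Y Z : Finset V), Z ⊆ X → NoCl G k (X ∪ Y) → NoCl Gᶜ k (X ∪ Y) →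
    Real.exp (L * k) ≤ M * X.card → Real.exp (L * k) ≤ M * Y.card →
    (∀ x ∈ Z, p * Y.card ≤ ((nb G x Y).card : ℝ)) →
    (∀ x ∈ Z, q * X.card ≤ ((nb G x X).card : ℝ)) →
    (Z.card : ℝ) ≤ C * Real.exp ((L - η) * k)

lemma log_size {L M : ℝ} (hM : 0 < M) {k : ℕ} {S : ℝ} (hS : 0 < S)
    (h : Real.exp (L * k) ≤ M * S) : L * k - Real.log M ≤ Real.log S := by
  have h1 := Real.log_le_log (Real.exp_pos _) h
  rw [Real.log_exp, Real.log_mul hM.ne' hS.ne'] at h1
  linarith


lemma nonempty_of {V : Type} {L M : ℝ} {k : ℕ} {S : Finset V}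
    (h : Real.exp (L * k) ≤ M * S.card) : S.Nonempty := by
  rw [Finset.nonempty_iff_ne_empty]
  rintro rfl
  simp only [card_empty, Nat.cast_zero, mul_zero] at h
  exact absurd (Real.exp_pos (L * k)) (not_lt.mpr h)

/-- from a bound for the logarithm to the bound -/
lemma card_le_of_log {V : Type} {Z : Finset V} {c a : ℝ} {k : ℕ} (hZ : Z.Nonempty)
    (h : Real.log Z.card ≤ c + a * k) : (Z.card : ℝ) ≤ Real.exp c * Real.exp (a * k) := by
  have hpos : (0 : ℝ) < Z.card := by exact_mod_cast hZ.card_pos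
  rw [← Real.exp_add]
  exact (Real.log_le_iff_le_exp hpos).mp h

/-- the last cell: one reservoir, `X` itself -/
lemma sm_lastX {Ls : List (ℝ × ℝ)} {Cb : ℝ} (hC : 1 ≤ Cb) (hbd : ∀ k l : ℕ, BdAt Ls Cb k l)
    {L M p q p1 : ℝ} (hL : 0 < L) (hM : 1 ≤ M) (hw : Win1 Ls L p1) (hq : p1 < q) : Sm L M p q := by
  obtain ⟨p2, b1, b2, A, B, W, hp2, hb1, hW, hTB, hD, hlt⟩ := hw
  obtain ⟨c, hc⟩ := shot1 hC hbd hb1 hW hTB hD (δ := min (q - p1) (1 - p2))
    (lt_min (by linarith) (by linarith)) (by linarith [min_le_right (q - p1) (1 - p2)])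
  have hη : 0 < (1 + b1) * L - (A + B + W) := by linarith
  refine ⟨min ((1 + b1) * L - (A + B + W)) L, Real.exp (c + b1 * Real.log M), lt_min hη hL,
    min_le_right _ _, Real.exp_pos _, ?_⟩
  intro V _ G k X Y Z hZX hk hl hX hY _ hd
  rcases Z.eq_empty_or_nonempty with rfl | hZ
  · simp only [card_empty, Nat.cast_zero]; positivity
  have hXne := nonempty_of hX
  have hXpos : (0 : ℝ) < X.card := by exact_mod_cast hXne.card_pos
  have h := hc V G k k k Z X hZ hXne
    (hk.mono (union_subset (hZX.trans subset_union_left) subset_union_left))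
    (hl.mono (hZX.trans subset_union_left)) (hl.mono subset_union_left)
    (by
      intro x hx
      refine le_trans ?_ (hd x hx)
      apply mul_le_mul_of_nonneg_right _ hXpos.le
      linarith [min_le_left (q - p1) (1 - p2)])
  have h1 := mul_le_mul_of_nonneg_left (log_size (by linarith) hXpos hX) hb1.le
  refine card_le_of_log hZ ?_
  have h2 : (L - ((1 + b1) * L - (A + B + W))) * k
      ≤ (L - min ((1 + b1) * L - (A + B + W)) L) * k := by
    apply mul_le_mul_of_nonneg_right _ (Nat.cast_nonneg k)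
    linarith [min_le_left ((1 + b1) * L - (A + B + W)) L]
  nlinarith

/-- the cell without condition on the degree into `X`: one reservoir, `Y` -/
lemma sm_lastY {Ls : List (ℝ × ℝ)} {Cb : ℝ} (hC : 1 ≤ Cb) (hbd : ∀ k l : ℕ, BdAt Ls Cb k l)
    {L M p q p1 : ℝ} (hL : 0 < L) (hM : 1 ≤ M) (hw : Win1 Ls L p1) (hp : p1 < p) : Sm L M p q := by
  obtain ⟨p2, b1, b2, A, B, W, hp2, hb1, hW, hTB, hD, hlt⟩ := hw
  obtain ⟨c, hc⟩ := shot1 hC hbd hb1 hW hTB hD (δ := min (p - p1) (1 - p2))
    (lt_min (by linarith) (by linarith)) (by linarith [min_le_right (p - p1) (1 - p2)])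
  have hη : 0 < (1 + b1) * L - (A + B + W) := by linarith
  refine ⟨min ((1 + b1) * L - (A + B + W)) L, Real.exp (c + b1 * Real.log M), lt_min hη hL,
    min_le_right _ _, Real.exp_pos _, ?_⟩
  intro V _ G k X Y Z hZX hk hl hX hY hd _
  rcases Z.eq_empty_or_nonempty with rfl | hZ
  · simp only [card_empty, Nat.cast_zero]; positivity
  have hYne := nonempty_of hY
  have hYpos : (0 : ℝ) < Y.card := by exact_mod_cast hYne.card_pos
  have h := hc V G k k k Z Y hZ hYne
    (hk.mono (union_subset (hZX.trans subset_union_left) subset_union_right))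
    (hl.mono (hZX.trans subset_union_left)) (hl.mono subset_union_right)
    (by
      intro x hx
      refine le_trans ?_ (hd x hx)
      apply mul_le_mul_of_nonneg_right _ hYpos.le
      linarith [min_le_left (p - p1) (1 - p2)])
  have h1 := mul_le_mul_of_nonneg_left (log_size (by linarith) hYpos hY) hb1.le
  refine card_le_of_log hZ ?_
  have h2 : (L - ((1 + b1) * L - (A + B + W))) * k
      ≤ (L - min ((1 + b1) * L - (A + B + W)) L) * k := by
    apply mul_le_mul_of_nonneg_right _ (Nat.cast_nonneg k)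
    linarith [min_le_left ((1 + b1) * L - (A + B + W)) L]
  nlinarith

lemma card_nb_compl' {V : Type} [DecidableEq V] (G : SimpleGraph V) (v : V) (X : Finset V) :
    (X.card : ℝ) - 1 - (nb G v X).card ≤ ((nb Gᶜ v X).card : ℝ) := by
  classical
  have h1 : X ⊆ insert v (nb G v X ∪ nb Gᶜ v X) := by
    intro w hwX
    by_cases hw : w = v
    · rw [hw]; exact mem_insert_self _ _
    · apply mem_insert_of_mem
      rw [mem_union, mem_nb, mem_nb, SimpleGraph.compl_adj]
      by_cases ha : G.Adj v w
      · exact Or.inl ⟨hwX, ha⟩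
      · exact Or.inr ⟨hwX, fun e => hw e.symm, ha⟩
  have h2 := card_le_card h1
  have h3 := card_insert_le v (nb G v X ∪ nb Gᶜ v X)
  have h4 := card_union_le (nb G v X) (nb Gᶜ v X)
  have h5 : X.card ≤ (nb G v X).card + (nb Gᶜ v X).card + 1 := by omega
  have h6 : (X.card : ℝ) ≤ (nb G v X).card + (nb Gᶜ v X).card + 1 := by
    exact_mod_cast h5
  linarith

/-- a cell of the degrees into `X`: two reservoirs; the red one is `Y` or `X` -/
lemma sm_cell {Ls : List (ℝ × ℝ)} {Cb : ℝ} (hC : 1 ≤ Cb) (hbd : ∀ k l : ℕ, BdAt Ls Cb k l)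
    {L M p q q' p1 p2 : ℝ} (hM : 1 ≤ M) (hw : Win Ls L p1 p2) (hp : p1 < p ∨ p1 < q)
    (hq' : p2 < 1 - q') (hnext : Sm L M p q') : Sm L M p q := by
  obtain ⟨b1, b2, A, B, W, A2, hb1, hb2, hTB, hD1, hD2, hlt⟩ := hw
  obtain ⟨η', C', hη', hη'L, hC', hn⟩ := hnext
  obtain ⟨δ, hδ, hδ1, hδ2⟩ : ∃ δ : ℝ, 0 < δ ∧ (p1 + δ ≤ p ∨ p1 + δ ≤ q) ∧ p2 + 2 * δ ≤ 1 - q' := by
    rcases hp with hp | hp
    · refine ⟨min (p - p1) ((1 - q' - p2) / 2), lt_min (by linarith) (by linarith), Or.inl ?_, ?_⟩
      · linarith [min_le_left (p - p1) ((1 - q' - p2) / 2)]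
      · linarith [min_le_right (p - p1) ((1 - q' - p2) / 2)]
    · refine ⟨min (q - p1) ((1 - q' - p2) / 2), lt_min (by linarith) (by linarith), Or.inr ?_, ?_⟩
      · linarith [min_le_left (q - p1) ((1 - q' - p2) / 2)]
      · linarith [min_le_right (q - p1) ((1 - q' - p2) / 2)]
  obtain ⟨c, hc⟩ := shot hC hbd hb1 hb2 hTB hD1 hD2 hδ
  have hη : 0 < (1 + b1 + b2) * L - (A + B + A2 + W) := by linarith
  set η0 := (1 + b1 + b2) * L - (A + B + A2 + W) with hη0
  refine ⟨min η0 η', Real.exp (c + b1 * Real.log M + b2 * Real.log M) + C' + 1 / δ,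
    lt_min hη hη', (min_le_right _ _).trans hη'L, by positivity, ?_⟩
  intro V _ G k X Y Z hZX hk hl hX hY hdY hdX
  have hXne := nonempty_of hX
  have hYne := nonempty_of hY
  have hXpos : (0 : ℝ) < X.card := by exact_mod_cast hXne.card_pos
  have hYpos : (0 : ℝ) < Y.card := by exact_mod_cast hYne.card_pos
  set E := Real.exp ((L - min η0 η') * k) with hE
  have hE1 : 1 ≤ E := by
    rw [hE]
    apply Real.one_le_exp
    apply mul_nonneg _ (Nat.cast_nonneg k)
    have := (min_le_right η0 η').trans hη'L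
    linarith
  have hE0 : Real.exp ((L - η0) * k) ≤ E := by
    rw [hE]
    apply Real.exp_le_exp.mpr
    apply mul_le_mul_of_nonneg_right _ (Nat.cast_nonneg k)
    linarith [min_le_left η0 η']
  have hE' : Real.exp ((L - η') * k) ≤ E := by
    rw [hE]
    apply Real.exp_le_exp.mpr
    apply mul_le_mul_of_nonneg_right _ (Nat.cast_nonneg k)
    linarith [min_le_right η0 η']
  set Z1 := Z.filter (fun x => q' * X.card ≤ ((nb G x X).card : ℝ)) with hZ1
  set Z2 := Z.filter (fun x => ¬ q' * X.card ≤ ((nb G x X).card : ℝ)) with hZ2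
  have hsum : Z1.card + Z2.card = Z.card := card_filter_add_card_filter_not _
  have h1 : (Z1.card : ℝ) ≤ C' * E := by
    have h := hn V G k X Y Z1 ((filter_subset _ _).trans hZX) hk hl hX hY
      (fun x hx => hdY x (mem_filter.mp hx).1) (fun x hx => (mem_filter.mp hx).2)
    exact h.trans (mul_le_mul_of_nonneg_left hE' hC'.le)
  have h2 : (Z2.card : ℝ) ≤ (Real.exp (c + b1 * Real.log M + b2 * Real.log M) + 1 / δ) * E := by
    have hc0 := Real.exp_pos (c + b1 * Real.log M + b2 * Real.log M)
    have hδ' : 0 < 1 / δ := by positivity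
    have hcE : 0 ≤ Real.exp (c + b1 * Real.log M + b2 * Real.log M) * E := by positivity
    rcases lt_or_ge (X.card : ℝ) (1 / δ) with hsmall | hlarge
    · have a1 : (Z2.card : ℝ) ≤ X.card := by
        exact_mod_cast card_le_card ((filter_subset _ _).trans hZX)
      have a2 : 1 / δ ≤ 1 / δ * E := by
        have := mul_le_mul_of_nonneg_left hE1 hδ'.le
        linarith
      rw [add_mul]
      linarith
    · rcases Z2.eq_empty_or_nonempty with he | hZ2ne
      · rw [he]; simp only [card_empty, Nat.cast_zero]; positivity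
      have hZ2X : Z2 ⊆ X := (filter_subset _ _).trans hZX
      have hblue : ∀ x ∈ Z2, (p2 + δ) * X.card ≤ ((nb Gᶜ x X).card : ℝ) := by
        intro x hx
        have b1' := (mem_filter.mp hx).2
        push Not at b1'
        have b2' := card_nb_compl' G x X
        have b3 : 1 ≤ δ * X.card := by
          rw [div_le_iff₀ hδ] at hlarge
          linarith
        have b4 : (p2 + δ) * X.card ≤ (1 - q' - δ) * X.card :=
          mul_le_mul_of_nonneg_right (by linarith) hXpos.le
        nlinarith
      have hmain : Real.log Z2.card ≤ (c + b1 * Real.log M + b2 * Real.log M) + (L - η0) * k := by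
        have lX := mul_le_mul_of_nonneg_left (log_size (by linarith) hXpos hX) hb2.le
        rcases hδ1 with hδ1 | hδ1
        · have h := hc V G k k k k Z2 Y X hZ2ne hYne hXne
            (hk.mono (union_subset (hZ2X.trans subset_union_left) subset_union_right))
            (hl.mono (union_subset (hZ2X.trans subset_union_left) subset_union_left))
            (hl.mono subset_union_right) (hk.mono subset_union_left)
            (by
              intro x hx
              refine le_trans ?_ (hdY x (mem_filter.mp hx).1)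
              exact mul_le_mul_of_nonneg_right hδ1 hYpos.le) hblue
          have lY := mul_le_mul_of_nonneg_left (log_size (by linarith) hYpos hY) hb1.le
          rw [hη0]
          linarith
        · have h := hc V G k k k k Z2 X X hZ2ne hXne hXne
            (hk.mono (union_subset (hZ2X.trans subset_union_left) subset_union_left))
            (hl.mono (union_subset (hZ2X.trans subset_union_left) subset_union_left))
            (hl.mono subset_union_left) (hk.mono subset_union_left)
            (by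
              intro x hx
              refine le_trans ?_ (hdX x (mem_filter.mp hx).1)
              exact mul_le_mul_of_nonneg_right hδ1 hXpos.le) hblue
          have lX1 := mul_le_mul_of_nonneg_left (log_size (by linarith) hXpos hX) hb1.le
          rw [hη0]
          linarith
      have a3 := card_le_of_log hZ2ne hmain
      have a4 := mul_le_mul_of_nonneg_left hE0 hc0.le
      have a5 : 0 ≤ 1 / δ * E := by positivity
      rw [add_mul]
      linarith
  have h3 : (Z.card : ℝ) = Z1.card + Z2.card := by exact_mod_cast hsum.symm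
  rw [h3]
  calc (Z1.card : ℝ) + Z2.card
      ≤ C' * E + (Real.exp (c + b1 * Real.log M + b2 * Real.log M) + 1 / δ) * E := add_le_add h1 h2
    _ = _ := by ring

/-- the number of pairs of adjacent vertices in `X × Y` -/
noncomputable def redPairs {V : Type} (G : SimpleGraph V) (X Y : Finset V) : ℕ := by
  classical exact ((X ×ˢ Y).filter (fun e => G.Adj e.1 e.2)).card

lemma redPairs_eq {V : Type} [DecidableEq V] (G : SimpleGraph V) (X Y : Finset V) :
    (redPairs G X Y : ℝ) = ∑ x ∈ X, ((nb G x Y).card : ℝ) := by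
  unfold redPairs nb
  rw [Finset.card_filter, Finset.sum_product]
  push_cast
  apply Finset.sum_congr rfl
  intro x _
  rw [Finset.card_filter]
  push_cast
  apply Finset.sum_congr rfl
  intro y _
  congr

/-- **Pairs of sets with unbalanced density.** -/
theorem pairs_main {L p c ε : ℝ} (hc : Real.exp L < c)
    (hε : 0 < ε) (hε1 : ε ≤ 1) (hsm : ∀ M : ℝ, 1 ≤ M → Sm L M (p - ε) 0) :
    ∃ K : ℕ, ∀ k : ℕ, K ≤ k → ∀ (V : Type) (G : SimpleGraph V) (X Y : Finset V),
      c ^ k ≤ (X.card : ℝ) → c ^ k ≤ (Y.card : ℝ) →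
      p * X.card * Y.card ≤ (redPairs G X Y : ℝ) →
      (∃ s : Finset V, G.IsNClique k s) ∨ (∃ s : Finset V, Gᶜ.IsNClique k s) := by
  obtain ⟨η, C, hη, hηL, hC, hs⟩ := hsm (1 / ε) (by rw [le_div_iff₀ hε]; linarith)
  have hlim : Tendsto (fun k : ℕ => Real.exp (η * k)) atTop atTop :=
    Real.tendsto_exp_atTop.comp (tendsto_natCast_atTop_atTop.const_mul_atTop hη)
  obtain ⟨K, hK⟩ := eventually_atTop.mp (hlim.eventually_gt_atTop (C / ε))
  refine ⟨K, fun k hk V G X Y hX hY hpairs => ?_⟩
  classical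
  by_contra hcon
  push Not at hcon
  obtain ⟨h1, h2⟩ := hcon
  have hc0 : 0 < c := (Real.exp_pos _).trans hc
  have hck : Real.exp (L * k) ≤ c ^ k := by
    rw [mul_comm, Real.exp_nat_mul]
    exact pow_le_pow_left₀ (Real.exp_pos _).le hc.le k
  have hXe := hck.trans hX
  have hYe := hck.trans hY
  have hXpos : (0 : ℝ) < X.card := (Real.exp_pos _).trans_le hXe
  have hYpos : (0 : ℝ) < Y.card := (Real.exp_pos _).trans_le hYe
  set X' := X.filter (fun x => (p - ε) * Y.card ≤ ((nb G x Y).card : ℝ)) with hX'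
  set X'' := X.filter (fun x => ¬ (p - ε) * Y.card ≤ ((nb G x Y).card : ℝ)) with hX''
  have hcard : ε * X.card ≤ X'.card := by
    rw [redPairs_eq] at hpairs
    have e1 : ∑ x ∈ X, ((nb G x Y).card : ℝ)
        = ∑ x ∈ X', ((nb G x Y).card : ℝ) + ∑ x ∈ X'', ((nb G x Y).card : ℝ) :=
      (Finset.sum_filter_add_sum_filter_not X _ _).symm
    have e2 : ∑ x ∈ X', ((nb G x Y).card : ℝ) ≤ ∑ x ∈ X', (Y.card : ℝ) :=
      Finset.sum_le_sum fun x _ => by
        exact_mod_cast card_le_card (by unfold nb; exact filter_subset _ _)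
    have e3 : ∑ x ∈ X'', ((nb G x Y).card : ℝ) ≤ ∑ x ∈ X'', (p - ε) * Y.card :=
      Finset.sum_le_sum fun x hx => by
        have := (mem_filter.mp hx).2
        push Not at this
        exact this.le
    rw [sum_const, nsmul_eq_mul] at e2 e3
    have e4 : (X'.card : ℝ) + X''.card = X.card := by
      exact_mod_cast card_filter_add_card_filter_not (s := X)
        (fun x => (p - ε) * Y.card ≤ ((nb G x Y).card : ℝ))
    have e5 : p * X.card * Y.card ≤ X'.card * Y.card + X''.card * ((p - ε) * Y.card) := by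
      linarith
    have e6 : p * X.card ≤ X'.card + X''.card * (p - ε) := by
      have : p * X.card * Y.card ≤ (X'.card + X''.card * (p - ε)) * Y.card := by
        rw [add_mul]
        linarith
      exact le_of_mul_le_mul_right this hYpos
    have e7 : (X''.card : ℝ) = X.card - X'.card := by linarith
    rw [e7] at e6
    -- `ε |X| ≤ |X'| (1 - p + ε)`
    have e8 : ε * X.card ≤ X'.card * (1 - p + ε) := by nlinarith
    rcases le_or_gt (1 - p + ε) 1 with h | h
    · have : (X'.card : ℝ) * (1 - p + ε) ≤ X'.card * 1 :=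
        mul_le_mul_of_nonneg_left h (Nat.cast_nonneg _)
      linarith
    · -- `p < ε`: all degrees are at least `(p - ε) |Y|`
      have h3 : X' = X := by
        rw [hX', Finset.filter_eq_self]
        intro x _
        have : (p - ε) * (Y.card : ℝ) ≤ 0 := mul_nonpos_of_nonpos_of_nonneg (by linarith) hYpos.le
        exact this.trans (Nat.cast_nonneg _)
      rw [h3]
      nlinarith
  have hX'e : Real.exp (L * k) ≤ 1 / ε * X'.card := by
    have : (X.card : ℝ) ≤ 1 / ε * X'.card := by
      rw [one_div, inv_mul_eq_div, le_div_iff₀ hε]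
      linarith
    exact hXe.trans this
  have hYe' : Real.exp (L * k) ≤ 1 / ε * Y.card := by
    have : (1 : ℝ) ≤ 1 / ε := by rw [le_div_iff₀ hε]; linarith
    nlinarith
  have hfin := hs V G k X' Y X' (Subset.refl _) (fun T _ => h1 T) (fun T _ => h2 T) hX'e hYe'
    (fun x hx => (mem_filter.mp hx).2)
    (fun x _ => by rw [zero_mul]; exact Nat.cast_nonneg _)
  have hK' := hK k hk
  have a1 : Real.exp (L * k) = Real.exp ((L - η) * k) * Real.exp (η * k) := by
    rw [← Real.exp_add]
    congr 1
    ring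
  have a2 : ε * Real.exp (L * k) ≤ C * Real.exp ((L - η) * k) := by
    have : ε * Real.exp (L * k) ≤ X'.card := (mul_le_mul_of_nonneg_left hXe hε.le).trans hcard
    exact this.trans hfin
  rw [a1] at a2
  have a3 : 0 < Real.exp ((L - η) * k) := Real.exp_pos _
  have a4 : ε * Real.exp (η * k) ≤ C := by
    have : (ε * Real.exp (η * k)) * Real.exp ((L - η) * k) ≤ C * Real.exp ((L - η) * k) := by
      linarith
    exact le_of_mul_le_mul_right this a3
  rw [div_lt_iff₀ hε] at hK'
  linarith

end Pool.Agent.V7H28.RM
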