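import Pool.Agent.V7H28.RM.Shot
import Pool.Agent.W87.Restr

set_option autoImplicit false

/-!
# Pseudorandom colourings and the two-reservoir book theorem
-/

open Finset Filter

namespace Pool.Agent.V7H28.RM

open H110R2 W478R Pool.Agent.TH428.RM Pool.Agent.TH502.RM Pool.Agent.W87.Restr

lemma edgePairs_eq {V : Type} [DecidableEq V] (G : SimpleGraph V) (X Y : Finset V) :
    edgePairs G X Y = ∑ x ∈ X, ((nb G x Y).card : ℝ) := by
  unfold edgePairs nb
  apply Finset.sum_congr rfl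
  intro v _
  congr!

/-- few vertices of `S` have small degree into `Y` -/
lemma few_low {V : Type} [DecidableEq V] {G : SimpleGraph V} {β η : ℝ} (hη : 0 < η)
    (h : Bijumbled G (1 / 2) β) (Z Y : Finset V) (hY : 0 < Y.card)
    (hZ : ∀ v ∈ Z, ((nb G v Y).card : ℝ) < (1 / 2 - η) * Y.card) :
    (Z.card : ℝ) * Y.card ≤ (β / η) ^ 2 := by
  have h1 := (abs_le.mp (h Z Y)).1
  rw [edgePairs_eq] at h1
  have h2 : ∑ v ∈ Z, ((nb G v Y).card : ℝ) ≤ ∑ v ∈ Z, (1 / 2 - η) * Y.card :=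
    Finset.sum_le_sum fun v hv => (hZ v hv).le
  rw [Finset.sum_const, nsmul_eq_mul] at h2
  set s : ℝ := (Z.card : ℝ) * Y.card with hs
  have hs0 : 0 ≤ s := by positivity
  have h3 : η * s ≤ β * Real.sqrt s := by
    have : (Z.card : ℝ) * ((1 / 2 - η) * Y.card) = 1 / 2 * Z.card * Y.card - η * s := by
      rw [hs]; ring
    linarith
  rcases hs0.eq_or_lt with h0 | hpos
  · rw [← h0]; positivity
  · have hsq : 0 < Real.sqrt s := Real.sqrt_pos.mpr hpos
    have h4 : η * Real.sqrt s ≤ β := by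
      have h5 : η * Real.sqrt s * Real.sqrt s ≤ β * Real.sqrt s := by
        rw [mul_assoc, Real.mul_self_sqrt hs0]
        exact h3
      exact le_of_mul_le_mul_right h5 hsq
    have h6 : Real.sqrt s ≤ β / η := by
      rw [le_div_iff₀ hη]; linarith
    calc s = Real.sqrt s ^ 2 := (Real.sq_sqrt hs0).symm
      _ ≤ (β / η) ^ 2 := pow_le_pow_left₀ hsq.le h6 2

/-- few vertices of `S` have large degree into `Y` -/
lemma few_high {V : Type} [DecidableEq V] {G : SimpleGraph V} {β η : ℝ} (hη : 0 < η)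
    (h : Bijumbled G (1 / 2) β) (Z Y : Finset V) (hY : 0 < Y.card)
    (hZ : ∀ v ∈ Z, (1 / 2 + η) * Y.card < ((nb G v Y).card : ℝ)) :
    (Z.card : ℝ) * Y.card ≤ (β / η) ^ 2 := by
  have h1 := (abs_le.mp (h Z Y)).2
  rw [edgePairs_eq] at h1
  have h2 : ∑ v ∈ Z, (1 / 2 + η) * Y.card ≤ ∑ v ∈ Z, ((nb G v Y).card : ℝ) :=
    Finset.sum_le_sum fun v hv => (hZ v hv).le
  rw [Finset.sum_const, nsmul_eq_mul] at h2
  set s : ℝ := (Z.card : ℝ) * Y.card with hs
  have hs0 : 0 ≤ s := by positivity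
  have h3 : η * s ≤ β * Real.sqrt s := by
    have : (Z.card : ℝ) * ((1 / 2 + η) * Y.card) = 1 / 2 * Z.card * Y.card + η * s := by
      rw [hs]; ring
    linarith
  rcases hs0.eq_or_lt with h0 | hpos
  · rw [← h0]; positivity
  · have hsq : 0 < Real.sqrt s := Real.sqrt_pos.mpr hpos
    have h4 : η * Real.sqrt s ≤ β := by
      have h5 : η * Real.sqrt s * Real.sqrt s ≤ β * Real.sqrt s := by
        rw [mul_assoc, Real.mul_self_sqrt hs0]
        exact h3
      exact le_of_mul_le_mul_right h5 hsq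
    have h6 : Real.sqrt s ≤ β / η := by
      rw [le_div_iff₀ hη]; linarith
    calc s = Real.sqrt s ^ 2 := (Real.sq_sqrt hs0).symm
      _ ≤ (β / η) ^ 2 := pow_le_pow_left₀ hsq.le h6 2

lemma card_nb_compl {V : Type} [DecidableEq V] [Fintype V] (G : SimpleGraph V) (v : V) :
    (Fintype.card V : ℝ) - 1 - (nb G v univ).card ≤ ((nb Gᶜ v univ).card : ℝ) := by
  classical
  have h1 : (univ : Finset V) ⊆ insert v (nb G v univ ∪ nb Gᶜ v univ) := by
    intro w _
    by_cases hw : w = v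
    · rw [hw]; exact mem_insert_self _ _
    · apply mem_insert_of_mem
      rw [mem_union, mem_nb, mem_nb, SimpleGraph.compl_adj]
      by_cases ha : G.Adj v w
      · exact Or.inl ⟨mem_univ _, ha⟩
      · exact Or.inr ⟨mem_univ _, fun e => hw e.symm, ha⟩
  have h2 := card_le_card h1
  have h3 := card_insert_le v (nb G v univ ∪ nb Gᶜ v univ)
  have h4 := card_union_le (nb G v univ) (nb Gᶜ v univ)
  rw [card_univ] at h2
  have h5 : Fintype.card V ≤ (nb G v univ).card + (nb Gᶜ v univ).card + 1 := by omega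
  have h6 : (Fintype.card V : ℝ) ≤ (nb G v univ).card + (nb Gᶜ v univ).card + 1 := by
    exact_mod_cast h5
  linarith

/-- **Pseudorandom colourings.** -/
theorem pseudo_main {Ls : List (ℝ × ℝ)} {C p1 p2 b1 b2 A B W A2 : ℝ} (hC : 1 ≤ C)
    (hbd : ∀ k l : ℕ, BdAt Ls C k l) (hb1 : 0 < b1) (hb2 : 0 < b2) (hA : 0 ≤ A)
    (hTB : TBook p1 p2 b1 b2 A W) (hD1 : Dom Ls b1 A B) (hD2 : Dom Ls b2 A2 W)
    (hp1 : p1 < 1 / 2) (hp2 : p2 < 1 / 2)
    {θ θ' d c : ℝ} (hθ' : θ' < θ) (hθ0 : 0 < θ) (hθ1 : θ ≤ 1) (hd0 : 0 < d) (hd1 : d < 1 / 2)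
    (hc : 1 < c)
    (hnum : A + B + A2 + W < (θ * (1 + b1) + b2 + A * (1 - θ) / Real.log (1 / d)) * Real.log c)
    (Bc : ℝ) :
    ∃ K : ℕ, ∀ k : ℕ, K ≤ k → ∀ {V : Type} [Fintype V] (G : SimpleGraph V),
      c ^ k ≤ (Fintype.card V : ℝ) → Bijumbled G (1 / 2) (Bc * (Fintype.card V : ℝ) ^ θ') →
      (∃ s : Finset V, G.IsNClique k s) ∨ (∃ s : Finset V, Gᶜ.IsNClique k s) := by
  have hL : 0 < Real.log (1 / d) := Real.log_pos (by rw [lt_div_iff₀ hd0]; linarith)
  set L := Real.log (1 / d) with hLdef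
  -- the margin in the degrees
  obtain ⟨δ, hδ, hδ1, hδ2, hδ3⟩ : ∃ δ : ℝ, 0 < δ ∧ p1 + 2 * δ ≤ 1 / 2 ∧ p2 + 3 * δ ≤ 1 / 2 ∧
      d + δ ≤ 1 / 2 := by
    refine ⟨min (min ((1 / 2 - p1) / 3) ((1 / 2 - p2) / 3)) (1 / 2 - d), ?_, ?_, ?_, ?_⟩
    · refine lt_min (lt_min ?_ ?_) ?_ <;> linarith
    · have h1 := (min_le_left (min ((1 / 2 - p1) / 3) ((1 / 2 - p2) / 3)) (1 / 2 - d)).trans
        (min_le_left _ _)
      linarith
    · have h1 := (min_le_left (min ((1 / 2 - p1) / 3) ((1 / 2 - p2) / 3)) (1 / 2 - d)).trans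
        (min_le_right _ _)
      linarith
    · have h1 := min_le_right (min ((1 / 2 - p1) / 3) ((1 / 2 - p2) / 3)) (1 / 2 - d)
      linarith
  obtain ⟨c0, hc0⟩ := shot hC hbd hb1 hb2 hTB hD1 hD2 hδ
  set R := θ * (1 + b1) + b2 + A * (1 - θ) / L with hR
  set M := c0 + Real.log 2 + A with hM
  have hgap : 0 < R * Real.log c - (A + B + A2 + W) := by linarith
  have hRpos : 0 < R := by
    rw [hR]
    have h1 : 0 ≤ A * (1 - θ) / L := div_nonneg (mul_nonneg hA (by linarith)) hL.le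
    have h2 : 0 < θ * (1 + b1) := mul_pos hθ0 (by linarith)
    linarith
  obtain ⟨K, hK⟩ := exists_nat_gt (M / (R * Real.log c - (A + B + A2 + W)))
  -- for large `n`, `2 |Bc| n^θ' / δ ≤ n ^ θ` and `2 ≤ n ^ θ` and `1 ≤ δ n`
  have hev : ∀ᶠ x : ℝ in atTop, 2 * (|Bc| / δ) + 1 ≤ x ^ (θ - θ') :=
    (tendsto_rpow_atTop (by linarith : (0:ℝ) < θ - θ')).eventually_ge_atTop _
  have hev2 : ∀ᶠ x : ℝ in atTop, 2 ≤ x ^ θ :=
    (tendsto_rpow_atTop hθ0).eventually_ge_atTop _
  have hev3 : ∀ᶠ x : ℝ in atTop, 1 / δ ≤ x := eventually_ge_atTop _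
  have hpow : Tendsto (fun k : ℕ => c ^ k) atTop atTop := tendsto_pow_atTop_atTop_of_one_lt hc
  obtain ⟨x0, hx0⟩ := eventually_atTop.mp (hev.and (hev2.and hev3))
  obtain ⟨K1, hK1⟩ := eventually_atTop.mp (hpow.eventually_ge_atTop x0)
  refine ⟨max K K1, fun k hk V _ G hn hb => ?_⟩
  classical
  by_contra hcon
  push Not at hcon
  obtain ⟨hcl1, hcl2⟩ := hcon
  obtain ⟨n, hndef⟩ : ∃ n : ℝ, n = (Fintype.card V : ℝ) := ⟨_, rfl⟩
  rw [← hndef] at hn hb
  obtain ⟨e1, e2, e3⟩ := hx0 n ((hK1 k (le_trans (le_max_right _ _) hk)).trans hn)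
  have hn1 : 1 ≤ n := (one_le_pow₀ hc.le).trans hn
  have hn0 : 0 < n := by linarith
  have hnθ : n ^ θ = n ^ (θ - θ') * n ^ θ' := by
    rw [← Real.rpow_add hn0]
    congr 1
    ring
  have hnθ'0 : 0 < n ^ θ' := Real.rpow_pos_of_pos hn0 _
  set β := Bc * n ^ θ' with hβ
  have hβn : 2 * (|β| / δ) ≤ n ^ θ := by
    rw [hnθ, hβ, abs_mul, abs_of_pos hnθ'0]
    have h1 : 2 * (|Bc| / δ) ≤ n ^ (θ - θ') := by linarith
    calc 2 * (|Bc| * n ^ θ' / δ) = 2 * (|Bc| / δ) * n ^ θ' := by ring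
      _ ≤ n ^ (θ - θ') * n ^ θ' := mul_le_mul_of_nonneg_right h1 hnθ'0.le
  have hβle : β / δ ≤ |β| / δ := div_le_div_of_nonneg_right (le_abs_self _) hδ.le
  have hβabs0 : 0 ≤ |β| / δ := by positivity
  -- the greedy phase
  have hdense : DenseAbove G d (n ^ θ) := by
    have h1 := hb.denseAbove hδ
    intro W' hW'
    have h2 := h1 W' (by linarith)
    refine le_trans ?_ h2
    apply mul_le_mul_of_nonneg_right _ (by positivity)
    linarith
  set N := Real.log n with hN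
  have hN0 : 0 ≤ N := Real.log_nonneg hn1
  set u : ℝ := (1 - θ) * N / L with hu
  have hu0 : 0 ≤ u := div_nonneg (mul_nonneg (by linarith) hN0) hL.le
  set t := ⌊u⌋₊ with ht
  have htu : (t : ℝ) ≤ u := Nat.floor_le hu0
  have hut : u < t + 1 := Nat.lt_floor_add_one u
  have hcardu : ((univ : Finset V).card : ℝ) = n := by rw [card_univ, hndef]
  have hdpow : ∀ i : ℕ, d ^ i * n = Real.exp (N - i * L) := by
    intro i
    rw [Real.exp_sub, hN, Real.exp_log hn0, Real.exp_nat_mul]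
    rw [hLdef, Real.exp_log (by positivity)]
    rw [one_div, inv_pow]
    field_simp
  have hnθe : n ^ θ = Real.exp (θ * N) := by
    rw [Real.rpow_def_of_pos hn0, mul_comm]
  have hsz : ∀ i : ℕ, (i : ℝ) ≤ u → n ^ θ ≤ d ^ i * n := by
    intro i h1
    have h2 : (i : ℝ) * L ≤ (1 - θ) * N := by
      rw [hu, le_div_iff₀ hL] at h1
      exact h1
    rw [hnθe, hdpow]
    apply Real.exp_le_exp.mpr
    linarith
  have hsize : ∀ i < t, n ^ θ ≤ d ^ i * ((univ : Finset V).card : ℝ) := by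
    intro i hi
    rw [hcardu]
    exact hsz i (le_trans (by exact_mod_cast hi.le) htu)
  obtain ⟨S, -, htk, hcard, hSk, hSl⟩ := greedy hd0 (Real.rpow_pos_of_pos hn0 θ) hdense
    (S := univ) (k := k) (l := k) (fun T _ => hcl1 T) (fun T _ => hcl2 T) t hsize
  rw [hcardu] at hcard
  have hSθ : n ^ θ ≤ S.card := (hsz t htu).trans hcard
  have hS2 : (2 : ℝ) ≤ S.card := by linarith
  have hS0 : 0 < S.card := by
    have : (0 : ℝ) < S.card := by linarith
    exact_mod_cast this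
  have hS0' : (0 : ℝ) < S.card := by linarith
  have hSn : (S.card : ℝ) ≤ n := by
    rw [← hcardu]
    exact_mod_cast card_le_card (subset_univ S)
  have hu0' : 0 < (univ : Finset V).card := by
    have : (0 : ℝ) < ((univ : Finset V).card : ℝ) := by rw [hcardu]; exact hn0
    exact_mod_cast this
  -- cleaning
  set Z1 := S.filter (fun v => ((nb G v S).card : ℝ) < (1 / 2 - δ) * S.card) with hZ1
  set Z2 := S.filter (fun v => (1 / 2 + δ) * ((univ : Finset V).card : ℝ) < ((nb G v univ).card : ℝ))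
    with hZ2
  have hz1 := few_low hδ hb Z1 S hS0 (fun v hv => (mem_filter.mp hv).2)
  have hz2 := few_high hδ hb Z2 univ hu0' (fun v hv => (mem_filter.mp hv).2)
  rw [hcardu] at hz2
  have hsqβ : (β / δ) ^ 2 ≤ (S.card / 2) ^ 2 := by
    rw [← sq_abs]
    apply pow_le_pow_left₀ (abs_nonneg _)
    rw [abs_div, abs_of_pos hδ]
    linarith
  have hz1' : (Z1.card : ℝ) ≤ S.card / 4 := by
    have h1 : (Z1.card : ℝ) * S.card ≤ S.card / 4 * S.card := by
      refine hz1.trans (hsqβ.trans (le_of_eq ?_))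
      ring
    exact le_of_mul_le_mul_right h1 hS0'
  have hz2' : (Z2.card : ℝ) ≤ S.card / 4 := by
    have h1 : (Z2.card : ℝ) * S.card ≤ S.card / 4 * S.card := by
      have h2 : (Z2.card : ℝ) * S.card ≤ Z2.card * n :=
        mul_le_mul_of_nonneg_left hSn (Nat.cast_nonneg _)
      refine h2.trans (hz2.trans (hsqβ.trans (le_of_eq ?_)))
      ring
    exact le_of_mul_le_mul_right h1 hS0'
  set X := (S \ Z1) \ Z2 with hX
  have hXS : X ⊆ S := sdiff_subset.trans sdiff_subset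
  have hXc : (S.card : ℝ) / 2 ≤ X.card := by
    have h1 : S.card ≤ X.card + Z1.card + Z2.card := by
      have h2 := le_card_sdiff Z2 (S \ Z1)
      have h3 := le_card_sdiff Z1 S
      rw [← hX] at h2
      omega
    have h2 : (S.card : ℝ) ≤ X.card + Z1.card + Z2.card := by exact_mod_cast h1
    linarith
  have hXne : X.Nonempty := by
    rw [← card_pos]
    have : (0 : ℝ) < X.card := by linarith
    exact_mod_cast this
  have hSne : S.Nonempty := card_pos.mp hS0
  have hune : (univ : Finset V).Nonempty := card_pos.mp hu0'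
  have hdeg1 : ∀ x ∈ X, (p1 + δ) * S.card ≤ ((nb G x S).card : ℝ) := by
    intro x hx
    have h1 : x ∉ Z1 := (Finset.mem_sdiff.mp (Finset.mem_sdiff.mp hx).1).2
    have h2 : ¬ ((nb G x S).card : ℝ) < (1 / 2 - δ) * S.card := by
      intro h3
      exact h1 (mem_filter.mpr ⟨hXS hx, h3⟩)
    push Not at h2
    refine le_trans (mul_le_mul_of_nonneg_right ?_ hS0'.le) h2
    linarith
  have hdeg2 : ∀ x ∈ X, (p2 + δ) * ((univ : Finset V).card : ℝ) ≤ ((nb Gᶜ x univ).card : ℝ) := by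
    intro x hx
    have h1 : x ∉ Z2 := (Finset.mem_sdiff.mp hx).2
    have h2 : ¬ (1 / 2 + δ) * ((univ : Finset V).card : ℝ) < ((nb G x univ).card : ℝ) := by
      intro h3
      exact h1 (mem_filter.mpr ⟨hXS hx, h3⟩)
    push Not at h2
    have h3 := card_nb_compl G x
    rw [← hndef] at h3
    rw [hcardu] at h2 ⊢
    have h4 : 1 ≤ δ * n := by
      rw [div_le_iff₀ hδ] at e3
      linarith
    have h5 : (p2 + δ) * n ≤ (1 / 2 - 2 * δ) * n :=
      mul_le_mul_of_nonneg_right (by linarith) hn0.le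
    linarith
  have hXu : X ∪ S = S := union_eq_right.mpr hXS
  have key := hc0 V G (k - t) k k k X S univ hXne hSne hune
    (by rw [hXu]; exact fun T hT => hSk T hT)
    (fun T _ => hcl2 T) (fun T _ => hcl2 T) (fun T _ => hcl1 T) hdeg1 hdeg2
  rw [hcardu] at key
  -- conclusion
  have l1 : θ * N ≤ Real.log S.card := by
    have : Real.log (n ^ θ) = θ * N := by rw [Real.log_rpow hn0]
    rw [← this]
    exact Real.log_le_log (Real.rpow_pos_of_pos hn0 θ) hSθ
  have l2 : Real.log S.card - Real.log 2 ≤ Real.log X.card := by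
    rw [← Real.log_div hS0'.ne' (by norm_num)]
    exact Real.log_le_log (by positivity) hXc
  rw [Nat.cast_sub htk] at key
  have l3 : b1 * (θ * N) ≤ b1 * Real.log S.card := mul_le_mul_of_nonneg_left l1 hb1.le
  have l4 : A * (u - 1) ≤ A * t := mul_le_mul_of_nonneg_left (by linarith) hA
  have l5 : A * u = A * (1 - θ) / L * N := by rw [hu]; ring
  have l5' : R * N = θ * N + b1 * (θ * N) + b2 * N + A * u := by
    rw [hR, l5]; ring
  have l6 : R * N ≤ M + (A + B + A2 + W) * k := by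
    rw [l5', hM]
    linarith
  have l7 : (k : ℝ) * Real.log c ≤ N := by
    rw [hN, ← Real.log_pow]
    exact Real.log_le_log (by positivity) hn
  have l8 : R * ((k : ℝ) * Real.log c) ≤ R * N := mul_le_mul_of_nonneg_left l7 hRpos.le
  have l9 : (R * Real.log c - (A + B + A2 + W)) * k ≤ M := by linarith
  have hkK : (K : ℝ) ≤ k := by exact_mod_cast (le_max_left _ _).trans hk
  have l10 : M < (R * Real.log c - (A + B + A2 + W)) * K := by
    rw [div_lt_iff₀ hgap] at hK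
    linarith
  have l11 := mul_le_mul_of_nonneg_left hkK hgap.le
  linarith

end Pool.Agent.V7H28.RM
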