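import Pool.Agent.TH428.RM.TBook2
import Pool.Agent.TH502.RM.GCheck2

set_option autoImplicit false

/-!
# One application of the two-reservoir book theorem

`shot`: the inequality between the sizes of `X`, `Y1`, `Y2` and the sizes of the forbidden cliques.
`shot1`: the same without the second reservoir (it is replaced by one new vertex).
-/

open Finset

namespace Pool.Agent.V7H28.RM

open H110R2 W478R Pool.Agent.TH428.RM Pool.Agent.TH502.RM

lemma res_log {Ls : List (ℝ × ℝ)} {b A B C : ℝ} (hb : 0 < b) (hC : 0 < C) (hD : Dom Ls b A B)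
    {a l : ℕ} (h : BdAt Ls C a l) {V : Type} [DecidableEq V] (G : SimpleGraph V) (Z : Finset V)
    (hZ : Z.Nonempty) (hZa : NoCl G a Z) (hZl : NoCl Gᶜ l Z) :
    b * Real.log Z.card ≤ b * Real.log C + A * a + B * l := by
  obtain ⟨L1, h1, L2, h2, s1, s2, t, ht0, ht1, hA, hB⟩ := hD
  have hZpos : (0 : ℝ) < Z.card := by exact_mod_cast hZ.card_pos
  have hA' : t * (sw s1 L1).1 + (1 - t) * (sw s2 L2).1 ≤ A / b := by
    rw [le_div_iff₀ hb]; linarith
  have hB' : t * (sw s1 L1).2 + (1 - t) * (sw s2 L2).2 ≤ B / b := by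
    rw [le_div_iff₀ hb]; linarith
  have key := free_bound hC h G Z hZa hZl h1 h2 s1 s2 ht0 ht1 hA' hB'
  have h3 : Real.log Z.card ≤ Real.log C + (A / b * a + B / b * l) := by
    have := Real.log_le_log hZpos key
    rwa [Real.log_mul (by positivity) (Real.exp_pos _).ne', Real.log_exp] at this
  have h4 := mul_le_mul_of_nonneg_left h3 hb.le
  have e : b * (Real.log C + (A / b * a + B / b * l))
      = b * Real.log C + A * a + B * l := by
    field_simp
    ring
  linarith

/-- **Two reservoirs.** -/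
theorem shot {Ls : List (ℝ × ℝ)} {C p1 p2 b1 b2 A B W A2 : ℝ} (hC : 1 ≤ C)
    (hbd : ∀ k l : ℕ, BdAt Ls C k l) (hb1 : 0 < b1) (hb2 : 0 < b2)
    (hTB : TBook p1 p2 b1 b2 A W) (hD1 : Dom Ls b1 A B) (hD2 : Dom Ls b2 A2 W) {δ : ℝ}
    (hδ : 0 < δ) :
    ∃ c : ℝ, ∀ (V : Type) [DecidableEq V] (G : SimpleGraph V) (k l k' l' : ℕ)
      (X Y1 Y2 : Finset V), X.Nonempty → Y1.Nonempty → Y2.Nonempty →
      NoCl G k (X ∪ Y1) → NoCl Gᶜ l (X ∪ Y2) → NoCl Gᶜ l' Y1 → NoCl G k' Y2 →
      (∀ x ∈ X, (p1 + δ) * Y1.card ≤ ((nb G x Y1).card : ℝ)) →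
      (∀ x ∈ X, (p2 + δ) * Y2.card ≤ ((nb Gᶜ x Y2).card : ℝ)) →
      Real.log X.card + b1 * Real.log Y1.card + b2 * Real.log Y2.card
        ≤ c + (A * k + B * l') + (A2 * k' + W * l) := by
  obtain ⟨c, hc⟩ := hTB δ hδ
  have hC0 : 0 < C := by linarith
  refine ⟨c + b1 * Real.log C + b2 * Real.log C, ?_⟩
  intro V _ G k l k' l' X Y1 Y2 hX hY1 hY2 hk hl hl' hk' hd1 hd2
  have h := hc V G k l (b1 * Real.log C + B * l') (b2 * Real.log C + A2 * k') X Y1 Y2 hX hY1 hY2
    hk hl
    (by
      intro a _ Z hZY hZ hZa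
      have := res_log hb1 hC0 hD1 (hbd a l') G Z hZ hZa (hl'.mono hZY)
      linarith)
    (by
      intro t _ Z hZY hZ hZt
      have := res_log hb2 hC0 hD2 (hbd k' t) G Z hZ (hk'.mono hZY) hZt
      linarith)
    hd1 hd2
  linarith

lemma not_noCl {V : Type} [DecidableEq V] {G : SimpleGraph V} {a : ℕ} {U S : Finset V}
    (hSU : S ⊆ U) (hc : G.IsClique (S : Set V)) (ha : a ≤ S.card) : ¬ NoCl G a U := by
  intro h
  obtain ⟨T, hT, hcard⟩ := Finset.exists_subset_card_eq ha
  exact h T (hT.trans hSU) ⟨hc.subset (by exact_mod_cast hT), hcard⟩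

lemma clique_filter {V : Type} [DecidableEq V] {G : SimpleGraph V} {T : Finset (Option V)}
    (hc : (G.map Function.Embedding.some).IsClique (T : Set (Option V))) (U : Finset V) :
    G.IsClique ((U.filter (fun v => some v ∈ T) : Finset V) : Set V) := by
  intro x hx y hy hxy
  simp only [coe_filter, Set.mem_setOf_eq] at hx hy
  have h := hc (x := some x) (by exact_mod_cast hx.2) (y := some y) (by exact_mod_cast hy.2)
    (by simpa using hxy)
  exact (SimpleGraph.map_adj_apply (f := Function.Embedding.some) (G := G) (a := x) (b := y)).mp h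

lemma clique_filter_compl {V : Type} [DecidableEq V] {G : SimpleGraph V} {T : Finset (Option V)}
    (hc : (G.map Function.Embedding.some)ᶜ.IsClique (T : Set (Option V))) (U : Finset V) :
    Gᶜ.IsClique ((U.filter (fun v => some v ∈ T) : Finset V) : Set V) := by
  intro x hx y hy hxy
  simp only [coe_filter, Set.mem_setOf_eq] at hx hy
  have h := hc (x := some x) (by exact_mod_cast hx.2) (y := some y) (by exact_mod_cast hy.2)
    (by simpa using hxy)
  rw [SimpleGraph.compl_adj] at h ⊢
  refine ⟨hxy, fun hadj => h.2 ?_⟩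
  exact (SimpleGraph.map_adj_apply (f := Function.Embedding.some) (G := G) (a := x) (b := y)).mpr
    hadj

lemma noCl_map {V : Type} [DecidableEq V] {G : SimpleGraph V} {a : ℕ} {U : Finset V}
    (h : NoCl G a U) : NoCl (G.map Function.Embedding.some) a (U.map Function.Embedding.some) := by
  intro T hT hc
  refine not_noCl (filter_subset (fun v => some v ∈ T) U) (clique_filter hc.isClique U) ?_ h
  have h1 : T ⊆ (U.filter (fun v => some v ∈ T)).map Function.Embedding.some := by
    intro z hz
    obtain ⟨v, hv, rfl⟩ := mem_map.mp (hT hz)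
    exact mem_map.mpr ⟨v, mem_filter.mpr ⟨hv, hz⟩, rfl⟩
  have h2 := card_le_card h1
  rw [card_map, hc.card_eq] at h2
  exact h2

lemma noCl_map_compl {V : Type} [DecidableEq V] {G : SimpleGraph V} {a : ℕ} {U : Finset V}
    (h : NoCl Gᶜ a U) :
    NoCl (G.map Function.Embedding.some)ᶜ a (U.map Function.Embedding.some) := by
  intro T hT hc
  refine not_noCl (filter_subset (fun v => some v ∈ T) U) (clique_filter_compl hc.isClique U) ?_ h
  have h1 : T ⊆ (U.filter (fun v => some v ∈ T)).map Function.Embedding.some := by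
    intro z hz
    obtain ⟨v, hv, rfl⟩ := mem_map.mp (hT hz)
    exact mem_map.mpr ⟨v, mem_filter.mpr ⟨hv, hz⟩, rfl⟩
  have h2 := card_le_card h1
  rw [card_map, hc.card_eq] at h2
  exact h2

lemma noCl_map_none {V : Type} [DecidableEq V] {G : SimpleGraph V} {a : ℕ} {U : Finset V}
    (h : NoCl Gᶜ a U) :
    NoCl (G.map Function.Embedding.some)ᶜ (a + 1) (U.map Function.Embedding.some ∪ {none}) := by
  intro T hT hc
  refine not_noCl (filter_subset (fun v => some v ∈ T) U) (clique_filter_compl hc.isClique U) ?_ h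
  have h1 : T ⊆ insert none ((U.filter (fun v => some v ∈ T)).map Function.Embedding.some) := by
    intro z hz
    rcases mem_union.mp (hT hz) with h' | h'
    · obtain ⟨v, hv, rfl⟩ := mem_map.mp h'
      exact mem_insert_of_mem (mem_map.mpr ⟨v, mem_filter.mpr ⟨hv, hz⟩, rfl⟩)
    · rw [mem_singleton] at h'
      rw [h']
      exact mem_insert_self _ _
  have h2 := (card_le_card h1).trans (card_insert_le _ _)
  rw [card_map, hc.card_eq] at h2
  omega

/-- **One reservoir.** -/
theorem shot1 {Ls : List (ℝ × ℝ)} {C p1 p2 b1 b2 A B W : ℝ} (hC : 1 ≤ C)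
    (hbd : ∀ k l : ℕ, BdAt Ls C k l) (hb1 : 0 < b1) (hW : 0 ≤ W)
    (hTB : TBook p1 p2 b1 b2 A W) (hD1 : Dom Ls b1 A B) {δ : ℝ} (hδ : 0 < δ) (hp2 : p2 + δ ≤ 1) :
    ∃ c : ℝ, ∀ (V : Type) [DecidableEq V] (G : SimpleGraph V) (k l l' : ℕ)
      (X Y1 : Finset V), X.Nonempty → Y1.Nonempty →
      NoCl G k (X ∪ Y1) → NoCl Gᶜ l X → NoCl Gᶜ l' Y1 →
      (∀ x ∈ X, (p1 + δ) * Y1.card ≤ ((nb G x Y1).card : ℝ)) →
      Real.log X.card + b1 * Real.log Y1.card ≤ c + (A * k + B * l') + W * l := by
  obtain ⟨c, hc⟩ := hTB δ hδ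
  have hC0 : 0 < C := by linarith
  refine ⟨c + b1 * Real.log C + W, ?_⟩
  intro V _ G k l l' X Y1 hX hY1 hk hl hl' hd1
  have h := hc (Option V) (G.map Function.Embedding.some) k (l + 1) (b1 * Real.log C + B * l') 0
    (X.map Function.Embedding.some) (Y1.map Function.Embedding.some) {none}
    (by simpa using hX) (by simpa using hY1) (by simp)
    (by rw [← map_union]; exact noCl_map hk) (noCl_map_none hl)
    (by
      intro a _ Z hZY hZ hZa
      have := res_log hb1 hC0 hD1 (hbd a l') _ Z hZ hZa ((noCl_map_compl hl').mono hZY)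
      linarith)
    (by
      intro t _ Z hZY hZ _
      have hcard : Z.card = 1 := by
        rcases Finset.subset_singleton_iff.mp hZY with h' | h'
        · rw [h'] at hZ
          exact absurd hZ (by simp)
        · rw [h', card_singleton]
      rw [hcard]
      simp only [Nat.cast_one, Real.log_one, mul_zero]
      positivity)
    (by
      intro x hx
      obtain ⟨v, hv, rfl⟩ := mem_map.mp hx
      have h1 := hd1 v hv
      have h2 : (nb G v Y1).map Function.Embedding.some ⊆
          nb (G.map Function.Embedding.some) (Function.Embedding.some v)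
            (Y1.map Function.Embedding.some) := by
        intro z hz
        obtain ⟨w, hw, rfl⟩ := mem_map.mp hz
        rw [mem_nb] at hw ⊢
        exact ⟨mem_map.mpr ⟨w, hw.1, rfl⟩, SimpleGraph.map_adj_apply.mpr hw.2⟩
      have h3 := card_le_card h2
      rw [card_map] at h3
      rw [card_map]
      exact h1.trans (by exact_mod_cast h3))
    (by
      intro x hx
      obtain ⟨v, hv, rfl⟩ := mem_map.mp hx
      have h2 : ({none} : Finset (Option V)) ⊆
          nb (G.map Function.Embedding.some)ᶜ (Function.Embedding.some v) {none} := by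
        intro z hz
        rw [mem_nb]
        refine ⟨hz, ?_⟩
        rw [mem_singleton] at hz
        subst hz
        rw [SimpleGraph.compl_adj]
        refine ⟨by simp, ?_⟩
        rw [SimpleGraph.map_adj]
        rintro ⟨u, w, _, _, hw⟩
        simp at hw
      have h3 := card_le_card h2
      rw [card_singleton] at h3
      have h4 : (1 : ℝ) ≤ ((nb (G.map Function.Embedding.some)ᶜ (Function.Embedding.some v)
          {none}).card : ℝ) := by exact_mod_cast h3
      rw [card_singleton]
      push_cast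
      linarith)
  rw [card_map, card_map, card_singleton] at h
  simp only [Nat.cast_one, Real.log_one, mul_zero, add_zero] at h
  push_cast at h
  linarith

end Pool.Agent.V7H28.RM
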