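import Pool.Agent.V7H28.RM.ApplyA
import Pool.Agent.V7H28.RM.CCs
import Pool.Agent.V7H28.RM.CCs2

set_option autoImplicit false

/-!
# The table for unbalanced pairs of sets
-/

namespace Pool.Agent.V7H28.RM

open H110R2 W478R Pool.Agent.TH428.RM Pool.Agent.TH502.RM

/-- the row `0.52` -/
theorem rowA520 : RowA 0.52 3.12 := by
  refine rowA_nat (P := 519990000) (y := 1137768800) (a := 31199) (b := 10000) (by norm_num) (by decide +kernel)
    (by norm_num) (by norm_num) ?_
  intro Cb hC hbd M hM
  have h13 : Sm ((1137768800 : ℕ) / 1000000000) M ((519990000 : ℕ) / 1000000000) ((604501000 :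
    ℕ) / 1000000000) := lastX_nat hC hbd hM (win1_nat (y := 1137768800) (c := cd3) cd3_ok (p1 :=
    604500990) (p2 := 990000000) (b1 := 4573642654) (b2 := 1000000) (A := 3648209434) (W :=
    675812423) (lp1 := 503351972) (lth1 := 210442441) (lp2 := 10050336) (lth2 := 3317723) (e1 :=
    1346056766) (v1 := 260264524) (e2 := 472347373) (v2 := 623536876) (L1 := (405808216,
    797659475)) (s1 := true) (L2 := (367038184, 873308318)) (s2 := true) (t := 999999897) (B :=
    1856021748) (by decide +kernel) (by decide +kernel) (by norm_num)) (by norm_num) (by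
    norm_num)
  have h12 : Sm ((1137768800 : ℕ) / 1000000000) M ((519990000 : ℕ) / 1000000000) ((558408000 :
    ℕ) / 1000000000) := cell_nat hC hbd hM (q' := 604501000) (c := cc1) cc1_ok (p1 := 558407990)
    (p2 := 395498990) (b1 := 5956254663) (b2 := 568746970) (A := 4751063040) (W := 1351636919)
    (lp1 := 582665419) (lth1 := 222426236) (lp2 := 927607046) (lth2 := 393029581) (e1 :=
    1238688339) (v1 := 289764041) (e2 := 581636404) (v2 := 558982896) (L1 := (405808216,
    797659475)) (s1 := true) (L2 := (367038184, 873308318)) (s2 := true) (t := 999999839) (B :=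
    2417097042) (M1 := (73615757, 2376517000)) (c1 := false) (M2 := (63888347, 2523902000)) (c2
    := false) (t2 := 999999093) (A2 := 41868734) (by decide +kernel) (by decide +kernel) (by
    decide +kernel) (Or.inr (by norm_num)) (by norm_num) (by norm_num) h13
  have h11 : Sm ((1137768800 : ℕ) / 1000000000) M ((519990000 : ℕ) / 1000000000) ((542549000 :
    ℕ) / 1000000000) := cell_nat hC hbd hM (q' := 558408000) (c := cc1) cc1_ok (p1 := 542548990)
    (p2 := 441591990) (b1 := 3780021886) (b2 := 939113351) (A := 3484778633) (W := 1583237088)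
    (lp1 := 611476894) (lth1 := 235540575) (lp2 := 817368923) (lth2 := 335277349) (e1 :=
    1114863334) (v1 := 327960097) (e2 := 652414458) (v2 := 520786840) (L1 := (367038184,
    873308318)) (s1 := true) (L2 := (343717149, 921893806)) (s2 := true) (t := 710) (B :=
    1299258409) (M1 := (158292703, 1629093000)) (c1 := false) (M2 := (148694855, 1685885000))
    (c2 := false) (t2 := 446) (A2 := 139641328) (by decide +kernel) (by decide +kernel) (by
    decide +kernel) (Or.inr (by norm_num)) (by norm_num) (by norm_num) h12
  have h10 : Sm ((1137768800 : ℕ) / 1000000000) M ((519990000 : ℕ) / 1000000000) ((535206000 :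
    ℕ) / 1000000000) := cell_nat hC hbd hM (q' := 542549000) (c := cc1) cc1_ok (p1 := 535205990)
    (p2 := 457450990) (b1 := 3810520210) (b2 := 1135684059) (A := 3512895090) (W := 1743036501)
    (lp1 := 625103579) (lth1 := 241814900) (lp2 := 782085526) (lth2 := 317433835) (e1 :=
    1064086235) (v1 := 345042999) (e2 := 685766609) (v2 := 503703938) (L1 := (343717149,
    921893806)) (s1 := true) (L2 := (331182987, 949903108)) (s2 := true) (t := 999998963) (B :=
    1309741094) (M1 := (184368008, 1493050000)) (c1 := false) (M2 := (175853048, 1534790000))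
    (c2 := false) (t2 := 758) (A2 := 199713511) (by decide +kernel) (by decide +kernel) (by
    decide +kernel) (Or.inr (by norm_num)) (by norm_num) (by norm_num) h11
  have h9 : Sm ((1137768800 : ℕ) / 1000000000) M ((519990000 : ℕ) / 1000000000) ((531456000 : ℕ)
    / 1000000000) := cell_nat hC hbd hM (q' := 535206000) (c := cc1) cc1_ok (p1 := 531455990)
    (p2 := 464793990) (b1 := 3481907144) (b2 := 1183456800) (A := 3307474432) (W := 1766959147)
    (lp1 := 632134889) (lth1 := 245070474) (lp2 := 766161004) (lth2 := 309482414) (e1 :=
    1038607327) (v1 := 353947272) (e2 := 703602316) (v2 := 494799665) (L1 := (331182987,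
    949903108)) (s1 := true) (L2 := (314865394, 989222609)) (s2 := true) (t := 999999897) (B :=
    1153148403) (M1 := (193204784, 1452139000)) (c1 := false) (M2 := (184368008, 1493050000))
    (c2 := false) (t2 := 21238) (A2 := 218191795) (by decide +kernel) (by decide +kernel) (by
    decide +kernel) (Or.inr (by norm_num)) (by norm_num) (by norm_num) h10
  have h8 : Sm ((1137768800 : ℕ) / 1000000000) M ((519990000 : ℕ) / 1000000000) ((529191000 : ℕ)
    / 1000000000) := cell_nat hC hbd hM (q' := 531456000) (c := cc1) cc1_ok (p1 := 529190990)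
    (p2 := 468543990) (b1 := 3647084041) (b2 := 2126363886) (A := 3464376624) (W := 2492329654)
    (lp1 := 636405873) (lth1 := 247053989) (lp2 := 758125287) (lth2 := 305494092) (e1 :=
    1023110598) (v1 := 359475017) (e2 := 714836871) (v2 := 489271920) (L1 := (331182987,
    949903108)) (s1 := true) (L2 := (314865394, 989222609)) (s2 := true) (t := 999998896) (B :=
    1207852121) (M1 := (270979166, 1115379881)) (c1 := false) (M2 := (254811442, 1172108738))
    (c2 := false) (t2 := 307) (A2 := 541821859) (by decide +kernel) (by decide +kernel) (by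
    decide +kernel) (Or.inr (by norm_num)) (by norm_num) (by norm_num) h9
  have h7 : Sm ((1137768800 : ℕ) / 1000000000) M ((519990000 : ℕ) / 1000000000) ((527238000 : ℕ)
    / 1000000000) := cell_nat hC hbd hM (q' := 529191000) (c := cc1) cc1_ok (p1 := 527237990)
    (p2 := 470808990) (b1 := 3650149154) (b2 := 2125447872) (A := 3467287924) (W := 2491256154)
    (lp1 := 640103239) (lth1 := 248774771) (lp2 := 753302809) (lth2 := 303108330) (e1 :=
    1011604709) (v1 := 363634983) (e2 := 723375582) (v2 := 485111954) (L1 := (343717149,
    921893806)) (s1 := true) (L2 := (331182987, 949903108)) (s2 := true) (t := 999) (B :=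
    1208867346) (M1 := (254811442, 1172108738)) (c1 := false) (M2 := (193204784, 1452139000))
    (c2 := false) (t2 := 999999780) (A2 := 541588409) (by decide +kernel) (by decide +kernel)
    (by decide +kernel) (Or.inr (by norm_num)) (by norm_num) (by norm_num) h8
  have h6 : Sm ((1137768800 : ℕ) / 1000000000) M ((519990000 : ℕ) / 1000000000) ((525676000 : ℕ)
    / 1000000000) := cell_nat hC hbd hM (q' := 527238000) (c := cc1) cc1_ok (p1 := 525675990)
    (p2 := 472761990) (b1 := 3645649585) (b2 := 2126934911) (A := 3463013913) (W := 2492999043)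
    (lp1 := 643070245) (lth1 := 250158098) (lp2 := 749163210) (lth2 := 301065036) (e1 :=
    1000148196) (v1 := 367824927) (e2 := 732050164) (v2 := 480922010) (L1 := (331182987,
    949903108)) (s1 := true) (L2 := (314865394, 989222609)) (s2 := true) (t := 999999711) (B :=
    1207377102) (M1 := (254811442, 1172108738)) (c1 := false) (M2 := (193204784, 1452139000))
    (c2 := false) (t2 := 999999919) (A2 := 541967342) (by decide +kernel) (by decide +kernel)
    (by decide +kernel) (Or.inr (by norm_num)) (by norm_num) (by norm_num) h7
  have h5 : Sm ((1137768800 : ℕ) / 1000000000) M ((519990000 : ℕ) / 1000000000) ((524348000 : ℕ)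
    / 1000000000) := cell_nat hC hbd hM (q' := 525676000) (c := cc1) cc1_ok (p1 := 524347990)
    (p2 := 474323990) (b1 := 3232522248) (b2 := 2078366387) (A := 3196218362) (W := 2436071427)
    (lp1 := 645599713) (lth1 := 251339158) (lp2 := 745864668) (lth2 := 299439952) (e1 :=
    994201413) (v1 := 370018819) (e2 := 736622447) (v2 := 478728118) (L1 := (331182987,
    949903108)) (s1 := true) (L2 := (314865394, 989222609)) (s2 := true) (t := 11531994) (B :=
    1018417670) (M1 := (254811442, 1172108738)) (c1 := false) (M2 := (193204784, 1452139000))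
    (c2 := false) (t2 := 999999959) (A2 := 529591531) (by decide +kernel) (by decide +kernel)
    (by decide +kernel) (Or.inr (by norm_num)) (by norm_num) (by norm_num) h6
  have h4 : Sm ((1137768800 : ℕ) / 1000000000) M ((519990000 : ℕ) / 1000000000) ((523177000 : ℕ)
    / 1000000000) := cell_nat hC hbd hM (q' := 524348000) (c := cc1) cc1_ok (p1 := 523176990)
    (p2 := 475651990) (b1 := 3220283141) (b2 := 2082469378) (A := 3185576507) (W := 2440880487)
    (lp1 := 647835460) (lth1 := 252384400) (lp2 := 743068806) (lth2 := 298064651) (e1 :=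
    984585518) (v1 := 373594043) (e2 := 744118645) (v2 := 475152894) (L1 := (331182987,
    949903108)) (s1 := true) (L2 := (314865394, 989222609)) (s2 := true) (t := 3029) (B :=
    1013955880) (M1 := (270979166, 1115379881)) (c1 := false) (M2 := (254811442, 1172108738))
    (c2 := false) (t2 := 572) (A2 := 530637045) (by decide +kernel) (by decide +kernel) (by
    decide +kernel) (Or.inr (by norm_num)) (by norm_num) (by norm_num) h5
  have h3 : Sm ((1137768800 : ℕ) / 1000000000) M ((519990000 : ℕ) / 1000000000) ((522162000 : ℕ)
    / 1000000000) := cell_nat hC hbd hM (q' := 523177000) (c := cc1) cc1_ok (p1 := 522161990)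
    (p2 := 476822990) (b1 := 3222334071) (b2 := 2081279752) (A := 3187605600) (W := 2439486254)
    (lp1 := 649777414) (lth1 := 253293301) (lp2 := 740609948) (lth2 := 296856738) (e1 :=
    979577704) (v1 := 375469625) (e2 := 748073779) (v2 := 473277312) (L1 := (331182987,
    949903108)) (s1 := true) (L2 := (314865394, 989222609)) (s2 := true) (t := 922) (B :=
    1014601536) (M1 := (254811442, 1172108738)) (c1 := false) (M2 := (193204784, 1452139000))
    (c2 := false) (t2 := 999999880) (A2 := 530333880) (by decide +kernel) (by decide +kernel)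
    (by decide +kernel) (Or.inr (by norm_num)) (by norm_num) (by norm_num) h4
  have h2 : Sm ((1137768800 : ℕ) / 1000000000) M ((519990000 : ℕ) / 1000000000) ((521303000 : ℕ)
    / 1000000000) := cell_nat hC hbd hM (q' := 522162000) (c := cc1) cc1_ok (p1 := 521302990)
    (p2 := 477837990) (b1 := 3218573765) (b2 := 2083290790) (A := 3183886041) (W := 2441843373)
    (lp1 := 651423852) (lth1 := 254064625) (lp2 := 738483537) (lth2 := 295813360) (e1 :=
    973310145) (v1 := 377830293) (e2 := 753074178) (v2 := 470916644) (L1 := (314865394,
    989222609)) (s1 := true) (L2 := (299811705, 1028578659)) (s2 := true) (t := 999999180) (B :=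
    1013417457) (M1 := (254811442, 1172108738)) (c1 := false) (M2 := (193204784, 1452139000))
    (c2 := false) (t2 := 999999942) (A2 := 530846323) (by decide +kernel) (by decide +kernel)
    (by decide +kernel) (Or.inr (by norm_num)) (by norm_num) (by norm_num) h3
  have h1 : Sm ((1137768800 : ℕ) / 1000000000) M ((519990000 : ℕ) / 1000000000) ((520600000 : ℕ)
    / 1000000000) := cell_nat hC hbd hM (q' := 521303000) (c := cc1) cc1_ok (p1 := 520599990)
    (p2 := 478696990) (b1 := 3220045483) (b2 := 2082085173) (A := 3185341855) (W := 2440430141)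
    (lp1 := 652773306) (lth1 := 254697321) (lp2 := 736687471) (lth2 := 294932953) (e1 :=
    969880451) (v1 := 379128360) (e2 := 755834453) (v2 := 469618577) (L1 := (314865394,
    989222609)) (s1 := true) (L2 := (299811705, 1028578659)) (s2 := true) (t := 999999518) (B :=
    1013880867) (M1 := (270979166, 1115379881)) (c1 := false) (M2 := (254811442, 1172108738))
    (c2 := false) (t2 := 708) (A2 := 530539150) (by decide +kernel) (by decide +kernel) (by
    decide +kernel) (Or.inr (by norm_num)) (by norm_num) (by norm_num) h2
  have h0 : Sm ((1137768800 : ℕ) / 1000000000) M ((519990000 : ℕ) / 1000000000) ((0 : ℕ) /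
    1000000000) := cell_nat hC hbd hM (q' := 520600000) (c := cc1) cc1_ok (p1 := 519980000) (p2
    := 479399990) (b1 := 3219167068) (b2 := 2083001742) (A := 3184472829) (W := 2441504502) (lp1
    := 653964930) (lth1 := 255256395) (lp2 := 735219978) (lth2 := 294214207) (e1 := 965986735)
    (v1 := 380607456) (e2 := 758988992) (v2 := 468139481) (L1 := (331182987, 949903108)) (s1 :=
    true) (L2 := (314865394, 989222609)) (s2 := true) (t := 133) (B := 1013604315) (M1 :=
    (270979166, 1115379881)) (c1 := false) (M2 := (254811442, 1172108738)) (c2 := false) (t2 :=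
    348) (A2 := 530772690) (by decide +kernel) (by decide +kernel) (by decide +kernel) (Or.inl
    (by norm_num)) (by norm_num) (by norm_num) h1
  exact h0

/-- the row `0.54` -/
theorem rowA540 : RowA 0.54 3.108 := by
  refine rowA_nat (P := 539990000) (y := 1133915000) (a := 31079) (b := 10000) (by norm_num) (by decide +kernel)
    (by norm_num) (by norm_num) ?_
  intro Cb hC hbd M hM
  have h5 : Sm ((1133915000 : ℕ) / 1000000000) M ((539990000 : ℕ) / 1000000000) ((635719000 : ℕ)
    / 1000000000) := lastX_nat hC hbd hM (win1_nat (y := 1133915000) (c := cd3) cd3_ok (p1 :=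
    635718990) (p2 := 990000000) (b1 := 3978722879) (b2 := 1000000) (A := 3173665965) (W :=
    617057005) (lp1 := 452998653) (lth1 := 186597320) (lp2 := 10050336) (lth2 := 3317723) (e1 :=
    1371309241) (v1 := 253774490) (e2 := 460622085) (v2 := 630891056) (L1 := (438463483,
    741113557)) (s1 := true) (L2 := (405808216, 797659475)) (s2 := true) (t := 169) (B :=
    1614598456) (by decide +kernel) (by decide +kernel) (by norm_num)) (by norm_num) (by
    norm_num)
  have h4 : Sm ((1133915000 : ℕ) / 1000000000) M ((539990000 : ℕ) / 1000000000) ((568923000 : ℕ)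
    / 1000000000) := cell_nat hC hbd hM (q' := 635719000) (c := cc2.swap) cc2_ok.swap (p1 :=
    568922990) (p2 := 364280990) (b1 := 10401977920) (b2 := 343834777) (A := 7709046690) (W :=
    1034860770) (lp1 := 564010197) (lth1 := 173471498) (lp2 := 1009829759) (lth2 := 273170326)
    (e1 := 1832831827) (v1 := 159959947) (e2 := 434077461) (v2 := 647862070) (L1 := (447120136,
    726922323)) (s1 := true) (L2 := (438463483, 741113557)) (s2 := true) (t := 1126) (B :=
    4560887571) (M1 := (52120712, 2737859000)) (c1 := false) (M2 := (40428883, 3009762000)) (c2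
    := false) (t2 := 814) (A2 := 13900860) (by decide +kernel) (by decide +kernel) (by
    decide +kernel) (Or.inr (by norm_num)) (by norm_num) (by norm_num) h5
  have h3 : Sm ((1133915000 : ℕ) / 1000000000) M ((539990000 : ℕ) / 1000000000) ((552048000 : ℕ)
    / 1000000000) := cell_nat hC hbd hM (q' := 568923000) (c := cc1) cc1_ok (p1 := 552047990)
    (p2 := 431076990) (b1 := 4324935823) (b2 := 787472040) (A := 3777002595) (W := 1469954330)
    (lp1 := 594120299) (lth1 := 227615591) (lp2 := 841468574) (lth2 := 347643843) (e1 :=
    1156504905) (v1 := 314583762) (e2 := 627053916) (v2 := 534163175) (L1 := (367038184,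
    873308318)) (s1 := true) (L2 := (343717149, 921893806)) (s2 := true) (t := 999999211) (B :=
    1587416511) (M1 := (135021037, 1776261000)) (c1 := false) (M2 := (122634319, 1866675000))
    (c2 := false) (t2 := 566) (A2 := 96571103) (by decide +kernel) (by decide +kernel) (by
    decide +kernel) (Or.inr (by norm_num)) (by norm_num) (by norm_num) h4
  have h2 : Sm ((1133915000 : ℕ) / 1000000000) M ((539990000 : ℕ) / 1000000000) ((544939000 : ℕ)
    / 1000000000) := cell_nat hC hbd hM (q' := 552048000) (c := cc1) cc1_ok (p1 := 544938990)
    (p2 := 447951990) (b1 := 3697848481) (b2 := 975829876) (A := 3409023622) (W := 1600790676)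
    (lp1 := 607081436) (lth1 := 233526550) (lp2 := 803069218) (lth2 := 328008203) (e1 :=
    1104698526) (v1 := 331310749) (e2 := 658869070) (v2 := 517436188) (L1 := (343717149,
    921893806)) (s1 := true) (L2 := (331182987, 949903108)) (s2 := true) (t := 999999886) (B :=
    1271013933) (M1 := (158292703, 1629093000)) (c1 := false) (M2 := (148694855, 1685885000))
    (c2 := false) (t2 := 800195063) (A2 := 152595403) (by decide +kernel) (by decide +kernel)
    (by decide +kernel) (Or.inr (by norm_num)) (by norm_num) (by norm_num) h3
  have h1 : Sm ((1133915000 : ℕ) / 1000000000) M ((539990000 : ℕ) / 1000000000) ((541580000 : ℕ)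
    / 1000000000) := cell_nat hC hbd hM (q' := 544939000) (c := cc1) cc1_ok (p1 := 541579990)
    (p2 := 455060990) (b1 := 3709021998) (b2 := 1053187373) (A := 3419324641) (W := 1663480081)
    (lp1 := 613264505) (lth1 := 236361041) (lp2 := 787323826) (lth2 := 320063276) (e1 :=
    1082193392) (v1 := 338851476) (e2 := 673549553) (v2 := 509895461) (L1 := (343717149,
    921893806)) (s1 := true) (L2 := (331182987, 949903108)) (s2 := true) (t := 999997741) (B :=
    1274854362) (M1 := (167274104, 1579472000)) (c1 := false) (M2 := (158292703, 1629093000))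
    (c2 := false) (t2 := 999997808) (A2 := 176170954) (by decide +kernel) (by decide +kernel)
    (by decide +kernel) (Or.inr (by norm_num)) (by norm_num) (by norm_num) h2
  have h0 : Sm ((1133915000 : ℕ) / 1000000000) M ((539990000 : ℕ) / 1000000000) ((0 : ℕ) /
    1000000000) := cell_nat hC hbd hM (q' := 541580000) (c := cc1) cc1_ok (p1 := 539980000) (p2
    := 458419990) (b1 := 3719582829) (b2 := 1116665340) (A := 3429060497) (W := 1713846948) (lp1
    := 616223178) (lth1 := 237720738) (lp2 := 779969507) (lth2 := 316373613) (e1 := 1071476626)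
    (v1 := 342502396) (e2 := 680735444) (v2 := 506244541) (L1 := (343717149, 921893806)) (s1 :=
    true) (L2 := (331182987, 949903108)) (s2 := true) (t := 999998791) (B := 1278484350) (M1 :=
    (175853048, 1534790000)) (c1 := false) (M2 := (167274104, 1579472000)) (c2 := false) (t2 :=
    999996978) (A2 := 196368975) (by decide +kernel) (by decide +kernel) (by decide +kernel)
    (Or.inl (by norm_num)) (by norm_num) (by norm_num) h1
  exact h0

/-- the row `0.56` -/
theorem rowA560 : RowA 0.56 3.082 := by
  refine rowA_nat (P := 559990000) (y := 1125513800) (a := 30819) (b := 10000) (by norm_num) (by decide +kernel)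
    (by norm_num) (by norm_num) ?_
  intro Cb hC hbd M hM
  have h4 : Sm ((1125513800 : ℕ) / 1000000000) M ((559990000 : ℕ) / 1000000000) ((600311000 : ℕ)
    / 1000000000) := lastX_nat hC hbd hM (win1_nat (y := 1125513800) (c := cd3) cd3_ok (p1 :=
    600310990) (p2 := 990000000) (b1 := 4673108157) (b2 := 1000000) (A := 3727549073) (W :=
    685167604) (lp1 := 510307442) (lth1 := 213785957) (lp2 := 10050336) (lth2 := 3317723) (e1 :=
    1342826584) (v1 := 261106585) (e2 := 473878817) (v2 := 622582695) (L1 := (405808216,
    797659475)) (s1 := true) (L2 := (367038184, 873308318)) (s2 := true) (t := 999999792) (B :=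
    1896385647) (by decide +kernel) (by decide +kernel) (by norm_num)) (by norm_num) (by
    norm_num)
  have h3 : Sm ((1125513800 : ℕ) / 1000000000) M ((559990000 : ℕ) / 1000000000) ((573202000 : ℕ)
    / 1000000000) := cell_nat hC hbd hM (q' := 600311000) (c := cd3) cd3_ok (p1 := 573201990)
    (p2 := 399688990) (b1 := 4062441340) (b2 := 450659949) (A := 3547763921) (W := 1137421461)
    (lp1 := 556517112) (lth1 := 236305894) (lp2 := 917068560) (lth2 := 401550799) (e1 :=
    1251304200) (v1 := 286131381) (e2 := 520495805) (v2 := 594225855) (L1 := (367038184,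
    873308318)) (s1 := true) (L2 := (343717149, 921893806)) (s2 := true) (t := 999999456) (B :=
    1491071041) (M1 := (73615757, 2376517000)) (c1 := false) (M2 := (63888347, 2523902000)) (c2
    := false) (t2 := 1289) (A2 := 28791925) (by decide +kernel) (by decide +kernel) (by
    decide +kernel) (Or.inr (by norm_num)) (by norm_num) (by norm_num) h4
  have h2 : Sm ((1125513800 : ℕ) / 1000000000) M ((559990000 : ℕ) / 1000000000) ((564531000 : ℕ)
    / 1000000000) := cell_nat hC hbd hM (q' := 573202000) (c := cd3) cd3_ok (p1 := 564530990)
    (p2 := 426797990) (b1 := 3541454890) (b2 := 664192890) (A := 3264845333) (W := 1303100613)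
    (lp1 := 571759999) (lth1 := 243851443) (lp2 := 851444470) (lth2 := 365931512) (e1 :=
    1192340536) (v1 := 303510056) (e2 := 554197368) (v2 := 574533215) (L1 := (343717149,
    921893806)) (s1 := true) (L2 := (331182987, 949903108)) (s2 := true) (t := 999999943) (B :=
    1217258776) (M1 := (116470777, 1915592000)) (c1 := false) (M2 := (111095453, 1961931000))
    (c2 := false) (t2 := 256) (A2 := 73788811) (by decide +kernel) (by decide +kernel) (by
    decide +kernel) (Or.inr (by norm_num)) (by norm_num) (by norm_num) h3
  have h1 : Sm ((1125513800 : ℕ) / 1000000000) M ((559990000 : ℕ) / 1000000000) ((561250000 : ℕ)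
    / 1000000000) := cell_nat hC hbd hM (q' := 564531000) (c := cd3) cd3_ok (p1 := 561249990)
    (p2 := 435468990) (b1 := 3546287865) (b2 := 727730164) (A := 3269300831) (W := 1358435574)
    (lp1 := 577588858) (lth1 := 246752203) (lp2 := 831331691) (lth2 := 355229008) (e1 :=
    1170403882) (v1 := 310241615) (e2 := 567562919) (v2 := 566905351) (L1 := (343717149,
    921893806)) (s1 := true) (L2 := (331182987, 949903108)) (s2 := true) (t := 999999860) (B :=
    1218919949) (M1 := (135021037, 1776261000)) (c1 := false) (M2 := (122634319, 1866675000))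
    (c2 := false) (t2 := 1975) (A2 := 89244711) (by decide +kernel) (by decide +kernel) (by
    decide +kernel) (Or.inr (by norm_num)) (by norm_num) (by norm_num) h2
  have h0 : Sm ((1125513800 : ℕ) / 1000000000) M ((559990000 : ℕ) / 1000000000) ((0 : ℕ) /
    1000000000) := cell_nat hC hbd hM (q' := 561250000) (c := cd3) cd3_ok (p1 := 559980000) (p2
    := 438749990) (b1 := 3548747918) (b2 := 727396271) (A := 3271568812) (W := 1357807633) (lp1
    := 579854211) (lth1 := 247881858) (lp2 := 823825527) (lth2 := 351260610) (e1 := 1163826722)
    (v1 := 312288849) (e2 := 571663395) (v2 := 564585529) (L1 := (343717149, 921893806)) (s1 :=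
    true) (L2 := (331182987, 949903108)) (s2 := true) (t := 999999122) (B := 1219765478) (M1 :=
    (135021037, 1776261000)) (c1 := false) (M2 := (122634319, 1866675000)) (c2 := false) (t2 :=
    73003) (A2 := 89204405) (by decide +kernel) (by decide +kernel) (by decide +kernel) (Or.inl
    (by norm_num)) (by norm_num) (by norm_num) h1
  exact h0

/-- the row `0.58` -/
theorem rowA580 : RowA 0.58 3.053 := by
  refine rowA_nat (P := 579990000) (y := 1116059200) (a := 30529) (b := 10000) (by norm_num) (by decide +kernel)
    (by norm_num) (by norm_num) ?_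
  intro Cb hC hbd M hM
  have h3 : Sm ((1116059200 : ℕ) / 1000000000) M ((579990000 : ℕ) / 1000000000) ((601271000 : ℕ)
    / 1000000000) := lastX_nat hC hbd hM (win1_nat (y := 1116059200) (c := cd3) cd3_ok (p1 :=
    601270990) (p2 := 990000000) (b1 := 4649421868) (b2 := 1000000) (A := 3708655432) (W :=
    683022540) (lp1 := 508709548) (lth1 := 213016776) (lp2 := 10050336) (lth2 := 3317723) (e1 :=
    1343449516) (v1 := 260943984) (e2 := 473582914) (v2 := 622766946) (L1 := (405808216,
    797659475)) (s1 := true) (L2 := (367038184, 873308318)) (s2 := true) (t := 999999927) (B :=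
    1886773581) (by decide +kernel) (by decide +kernel) (by norm_num)) (by norm_num) (by
    norm_num)
  have h2 : Sm ((1116059200 : ℕ) / 1000000000) M ((579990000 : ℕ) / 1000000000) ((585803000 : ℕ)
    / 1000000000) := cell_nat hC hbd hM (q' := 601271000) (c := cd3) cd3_ok (p1 := 585802990)
    (p2 := 398728990) (b1 := 3847970444) (b2 := 433341448) (A := 3360464567) (W := 1093712812)
    (lp1 := 534771741) (lth1 := 225641996) (lp2 := 919473316) (lth2 := 402876324) (e1 :=
    1268287596) (v1 := 281312931) (e2 := 511349295) (v2 := 599685880) (L1 := (405808216,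
    797659475)) (s1 := true) (L2 := (367038184, 873308318)) (s2 := true) (t := 101) (B :=
    1412352099) (M1 := (63888347, 2523902000)) (c1 := false) (M2 := (52120712, 2737859000)) (c2
    := false) (t2 := 999984203) (A2 := 27685389) (by decide +kernel) (by decide +kernel) (by
    decide +kernel) (Or.inr (by norm_num)) (by norm_num) (by norm_num) h3
  have h1 : Sm ((1116059200 : ℕ) / 1000000000) M ((579990000 : ℕ) / 1000000000) ((581350000 : ℕ)
    / 1000000000) := cell_nat hC hbd hM (q' := 585803000) (c := cd3) cd3_ok (p1 := 581349990)
    (p2 := 414196990) (b1 := 3862072278) (b2 := 523107001) (A := 3372779828) (W := 1176239381)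
    (lp1 := 542402312) (lth1 := 229370559) (lp2 := 881413598) (lth2 := 382065488) (e1 :=
    1238721339) (v1 := 289754479) (e2 := 527428792) (v2 := 590120343) (L1 := (405808216,
    797659475)) (s1 := true) (L2 := (367038184, 873308318)) (s2 := true) (t := 59) (B :=
    1417528005) (M1 := (91175559, 2157455000)) (c1 := false) (M2 := (83340185, 2248564000)) (c2
    := false) (t2 := 3979) (A2 := 43595851) (by decide +kernel) (by decide +kernel) (by
    decide +kernel) (Or.inr (by norm_num)) (by norm_num) (by norm_num) h2
  have h0 : Sm ((1116059200 : ℕ) / 1000000000) M ((579990000 : ℕ) / 1000000000) ((0 : ℕ) /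
    1000000000) := cell_nat hC hbd hM (q' := 581350000) (c := cd3) cd3_ok (p1 := 579980000) (p2
    := 418649990) (b1 := 3868333197) (b2 := 560808209) (A := 3378247886) (W := 1209918481) (lp1
    := 544761659) (lth1 := 230526363) (lp2 := 870720055) (lth2 := 376282974) (e1 := 1229506164)
    (v1 := 292436958) (e2 := 532593002) (v2 := 587080693) (L1 := (367038184, 873308318)) (s1 :=
    true) (L2 := (343717149, 921893806)) (s2 := true) (t := 999998254) (B := 1419825835) (M1 :=
    (91175559, 2157455000)) (c1 := false) (M2 := (83340185, 2248564000)) (c2 := false) (t2 :=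
    999999874) (A2 := 51132002) (by decide +kernel) (by decide +kernel) (by decide +kernel)
    (Or.inl (by norm_num)) (by norm_num) (by norm_num) h1
  exact h0

/-- the row `0.6` -/
theorem rowA600 : RowA 0.6 3.022 := by
  refine rowA_nat (P := 599990000) (y := 1105852600) (a := 30219) (b := 10000) (by norm_num) (by decide +kernel)
    (by norm_num) (by norm_num) ?_
  intro Cb hC hbd M hM
  have h2 : Sm ((1105852600 : ℕ) / 1000000000) M ((599990000 : ℕ) / 1000000000) ((610760000 : ℕ)
    / 1000000000) := lastX_nat hC hbd hM (win1_nat (y := 1105852600) (c := cd3) cd3_ok (p1 :=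
    610759990) (p2 := 990000000) (b1 := 4436726011) (b2 := 1000000) (A := 3538996565) (W :=
    662422306) (lp1 := 493051213) (lth1 := 205513015) (lp2 := 10050336) (lth2 := 3317723) (e1 :=
    1351462805) (v1 := 258861320) (e2 := 469800585) (v2 := 625126916) (L1 := (405808216,
    797659475)) (s1 := true) (L2 := (367038184, 873308318)) (s2 := true) (t := 999999928) (B :=
    1800459856) (by decide +kernel) (by decide +kernel) (by norm_num)) (by norm_num) (by
    norm_num)
  have h1 : Sm ((1105852600 : ℕ) / 1000000000) M ((599990000 : ℕ) / 1000000000) ((602010000 : ℕ)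
    / 1000000000) := cell_nat hC hbd hM (q' := 610760000) (c := cd3) cd3_ok (p1 := 602009990)
    (p2 := 389239990) (b1 := 4582396651) (b2 := 338667940) (A := 3655192205) (W := 1019309415)
    (lp1 := 507481240) (lth1 := 212425936) (lp2 := 943559185) (lth2 := 416231538) (e1 :=
    1301894005) (v1 := 272016105) (e2 := 493934788) (v2 := 610220576) (L1 := (405808216,
    797659475)) (s1 := true) (L2 := (367038184, 873308318)) (s2 := true) (t := 999999717) (B :=
    1859574160) (M1 := (52120712, 2737859000)) (c1 := false) (M2 := (40428883, 3009762000)) (c2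
    := false) (t2 := 5229) (A2 := 13691988) (by decide +kernel) (by decide +kernel) (by
    decide +kernel) (Or.inr (by norm_num)) (by norm_num) (by norm_num) h2
  have h0 : Sm ((1105852600 : ℕ) / 1000000000) M ((599990000 : ℕ) / 1000000000) ((0 : ℕ) /
    1000000000) := cell_nat hC hbd hM (q' := 602010000) (c := cd3) cd3_ok (p1 := 599980000) (p2
    := 397989990) (b1 := 3633115818) (b2 := 366452145) (A := 3172830216) (W := 1003294279) (lp1
    := 510858958) (lth1 := 214051590) (lp2 := 921328425) (lth2 := 403899855) (e1 := 1287659993)
    (v1 := 275915673) (e2 := 501202441) (v2 := 605801781) (L1 := (405808216, 797659475)) (s1 :=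
    true) (L2 := (367038184, 873308318)) (s2 := true) (t := 176) (B := 1333492257) (M1 :=
    (63888347, 2523902000)) (c1 := false) (M2 := (52120712, 2737859000)) (c2 := false) (t2 :=
    310) (A2 := 19099749) (by decide +kernel) (by decide +kernel) (by decide +kernel) (Or.inl
    (by norm_num)) (by norm_num) (by norm_num) h1
  exact h0

/-- the row `0.62` -/
theorem rowA620 : RowA 0.62 2.988 := by
  refine rowA_nat (P := 619990000) (y := 1094537300) (a := 29879) (b := 10000) (by norm_num) (by decide +kernel)
    (by norm_num) (by norm_num) ?_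
  intro Cb hC hbd M hM
  have h2 : Sm ((1094537300 : ℕ) / 1000000000) M ((619990000 : ℕ) / 1000000000) ((637735000 : ℕ)
    / 1000000000) := lastX_nat hC hbd hM (win1_nat (y := 1094537300) (c := cd3) cd3_ok (p1 :=
    637734990) (p2 := 990000000) (b1 := 3947210414) (b2 := 1000000) (A := 3148529784) (W :=
    613812399) (lp1 := 449832459) (lth1 := 185119060) (lp2 := 10050336) (lth2 := 3317723) (e1 :=
    1372945799) (v1 := 253359513) (e2 := 459877018) (v2 := 631361287) (L1 := (438463483,
    741113557)) (s1 := true) (L2 := (405808216, 797659475)) (s2 := true) (t := 12) (B :=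
    1601810418) (by decide +kernel) (by decide +kernel) (by norm_num)) (by norm_num) (by
    norm_num)
  have h1 : Sm ((1094537300 : ℕ) / 1000000000) M ((619990000 : ℕ) / 1000000000) ((622110000 : ℕ)
    / 1000000000) := cell_nat hC hbd hM (q' := 637735000) (c := cd3) cd3_ok (p1 := 622109990)
    (p2 := 362264990) (b1 := 4240794333) (b2 := 188703696) (A := 3382709856) (W := 836858867)
    (lp1 := 474638370) (lth1 := 196767494) (lp2 := 1015379319) (lth2 := 456902547) (e1 :=
    1352760062) (v1 := 258525728) (e2 := 469192452) (v2 := 625507192) (L1 := (405808216,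
    797659475)) (s1 := true) (L2 := (367038184, 873308318)) (s2 := true) (t := 999999767) (B :=
    1720949145) (M1 := (40428883, 3009762000)) (c1 := false) (M2 := (11928563, 4434778000)) (c2
    := false) (t2 := 493) (A2 := 2250967) (by decide +kernel) (by decide +kernel) (by
    decide +kernel) (Or.inr (by norm_num)) (by norm_num) (by norm_num) h2
  have h0 : Sm ((1094537300 : ℕ) / 1000000000) M ((619990000 : ℕ) / 1000000000) ((0 : ℕ) /
    1000000000) := cell_nat hC hbd hM (q' := 622110000) (c := cd3) cd3_ok (p1 := 619980000) (p2
    := 377889990) (b1 := 4248875359) (b2 := 233132377) (A := 3389155707) (W := 880969523) (lp1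
    := 478068060) (lth1 := 198390083) (lp2 := 973152158) (lth2 := 432836244) (e1 := 1337947092)
    (v1 := 262383766) (e2 := 476206094) (v2 := 621135457) (L1 := (405808216, 797659475)) (s1 :=
    true) (L2 := (367038184, 873308318)) (s2 := true) (t := 999999942) (B := 1724228520) (M1 :=
    (40428883, 3009762000)) (c1 := false) (M2 := (11928563, 4434778000)) (c2 := false) (t2 :=
    460303490) (A2 := 5839351) (by decide +kernel) (by decide +kernel) (by decide +kernel)
    (Or.inl (by norm_num)) (by norm_num) (by norm_num) h1
  exact h0

/-- the row `0.65` -/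
theorem rowA650 : RowA 0.65 2.934 := by
  refine rowA_nat (P := 649990000) (y := 1076298500) (a := 29339) (b := 10000) (by norm_num) (by decide +kernel)
    (by norm_num) (by norm_num) ?_
  intro Cb hC hbd M hM
  exact lastY_nat hC hbd hM (win1_nat (y := 1076298500) (c := cd3) cd3_ok (p1 := 649980000) (p2
    := 990000000) (b1 := 3767410324) (b2 := 1000000) (A := 3005110479) (W := 595509911) (lp1 :=
    430813686) (lth1 := 176291897) (lp2 := 10050336) (lth2 := 3317723) (e1 := 1382057932) (v1 :=
    251061354) (e2 := 455760830) (v2 := 633965445) (L1 := (438463483, 741113557)) (s1 := true)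
    (L2 := (405808216, 797659475)) (s2 := true) (t := 292) (B := 1528846099) (by decide +kernel)
    (by decide +kernel) (by norm_num)) (by norm_num) (by norm_num)

/-- the row `0.7` -/
theorem rowA700 : RowA 0.7 2.834 := by
  refine rowA_nat (P := 699990000) (y := 1041618500) (a := 28339) (b := 10000) (by norm_num) (by decide +kernel)
    (by norm_num) (by norm_num) ?_
  intro Cb hC hbd M hM
  exact lastY_nat hC hbd hM (win1_nat (y := 1041618500) (c := cd4) cd4_ok (p1 := 699980000) (p2
    := 990000000) (b1 := 2872096049) (b2 := 1000000) (A := 2290954638) (W := 575705928) (lp1 :=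
    356703516) (lth1 := 172767216) (lp2 := 10050336) (lth2 := 4213334) (e1 := 1266466840) (v1 :=
    281825600) (e2 := 442647787) (v2 := 642333406) (L1 := (405808216, 797659475)) (s1 := true)
    (L2 := (367038184, 873308318)) (s2 := true) (t := 999999948) (B := 1165520169) (by
    decide +kernel) (by decide +kernel) (by norm_num)) (by norm_num) (by norm_num)

/-- the row `0.75` -/
theorem rowA750 : RowA 0.75 2.748 := by
  refine rowA_nat (P := 749990000) (y := 1010800500) (a := 27479) (b := 10000) (by norm_num) (by decide +kernel)
    (by norm_num) (by norm_num) ?_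
  intro Cb hC hbd M hM
  exact lastY_nat hC hbd hM (win1_nat (y := 1010800500) (c := cd5) cd5_ok (p1 := 749980000) (p2
    := 990000000) (b1 := 2031588923) (b2 := 1000000) (A := 1774203511) (W := 543905590) (lp1 :=
    287708740) (lth1 := 166942271) (lp2 := 10050336) (lth2 := 5289019) (e1 := 1189695893) (v1 :=
    304313794) (e2 := 425310533) (v2 := 653566800) (L1 := (367038184, 873308318)) (s1 := true)
    (L2 := (343717149, 921893806)) (s2 := true) (t := 999999942) (B := 745670707) (by
    decide +kernel) (by decide +kernel) (by norm_num)) (by norm_num) (by norm_num)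

/-- the row `0.8` -/
theorem rowA800 : RowA 0.8 2.665 := by
  refine rowA_nat (P := 799990000) (y := 980129000) (a := 26649) (b := 10000) (by norm_num) (by decide +kernel)
    (by norm_num) (by norm_num) ?_
  intro Cb hC hbd M hM
  exact lastY_nat hC hbd hM (win1_nat (y := 980129000) (c := cd5) cd5_ok (p1 := 799980000) (p2
    := 990000000) (b1 := 2133426396) (b2 := 1000000) (A := 1701747790) (W := 502948128) (lp1 :=
    223168552) (lth1 := 127748356) (lp2 := 10050336) (lth2 := 5289019) (e1 := 1225632382) (v1 :=
    293571992) (e2 := 408093914) (v2 := 664916431) (L1 := (405808216, 797659475)) (s1 := true)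
    (L2 := (367038184, 873308318)) (s2 := true) (t := 999999932) (B := 865761955) (by
    decide +kernel) (by decide +kernel) (by norm_num)) (by norm_num) (by norm_num)

/-- the row `0.85` -/
theorem rowA850 : RowA 0.85 2.594 := by
  refine rowA_nat (P := 849990000) (y := 953123900) (a := 25939) (b := 10000) (by norm_num) (by decide +kernel)
    (by norm_num) (by norm_num) ?_
  intro Cb hC hbd M hM
  exact lastY_nat hC hbd hM (win1_nat (y := 953123900) (c := cd5) cd5_ok (p1 := 849980000) (p2
    := 990000000) (b1 := 1981022405) (b2 := 1000000) (A := 1580181279) (W := 456315295) (lp1 :=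
    162542460) (lth1 := 91841952) (lp2 := 10050336) (lth2 := 5289019) (e1 := 1258179296) (v1 :=
    284170947) (e2 := 393265668) (v2 := 674849438) (L1 := (438463483, 741113557)) (s1 := true)
    (L2 := (405808216, 797659475)) (s2 := true) (t := 112) (B := 803915176) (by decide +kernel)
    (by decide +kernel) (by norm_num)) (by norm_num) (by norm_num)

/-- the row `0.9` -/
theorem rowA900 : RowA 0.9 2.532 := by
  refine rowA_nat (P := 899990000) (y := 928930500) (a := 25319) (b := 10000) (by norm_num) (by decide +kernel)
    (by norm_num) (by norm_num) ?_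
  intro Cb hC hbd M hM
  exact lastY_nat hC hbd hM (win1_nat (y := 928930500) (c := cd5) cd5_ok (p1 := 899980000) (p2
    := 990000000) (b1 := 1861385200) (b2 := 1000000) (A := 1484751546) (W := 417809251) (lp1 :=
    105382739) (lth1 := 58805569) (lp2 := 10050336) (lth2 := 5289019) (e1 := 1288591947) (v1 :=
    275658652) (e2 := 380026330) (v2 := 683843404) (L1 := (405808216, 797659475)) (s1 := true)
    (L2 := (367038184, 873308318)) (s2 := true) (t := 999999968) (B := 755365405) (by
    decide +kernel) (by decide +kernel) (by norm_num)) (by norm_num) (by norm_num)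

/-- the row `0.95` -/
theorem rowA950 : RowA 0.95 2.479 := by
  refine rowA_nat (P := 949990000) (y := 907774500) (a := 24789) (b := 10000) (by norm_num) (by decide +kernel)
    (by norm_num) (by norm_num) ?_
  intro Cb hC hbd M hM
  exact lastY_nat hC hbd hM (win1_nat (y := 907774500) (c := cd5) cd5_ok (p1 := 949980000) (p2
    := 990000000) (b1 := 1909397785) (b2 := 1000000) (A := 1415080596) (W := 386709048) (lp1 :=
    51314348) (lth1 := 28292262) (lp2 := 10050336) (lth2 := 5289019) (e1 := 1317099365) (v1 :=
    267911289) (e2 := 368127195) (v2 := 692029154) (L1 := (438463483, 741113557)) (s1 := true)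
    (L2 := (405808216, 797659475)) (s2 := true) (t := 999999891) (B := 837201197) (by
    decide +kernel) (by decide +kernel) (by norm_num)) (by norm_num) (by norm_num)

end Pool.Agent.V7H28.RM
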