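import Pool.Agent.V7H28.RM.Apply
import Pool.Agent.V7H28.RM.CCs

set_option autoImplicit false

/-!
# The table for pseudorandom colourings
-/

namespace Pool.Agent.V7H28.RM

open H110R2 W478R Pool.Agent.TH428.RM Pool.Agent.TH502.RM Pool.Agent.W87.Restr

/-- the row of the table for the exponent `0.5` -/
theorem p5 (Bc : ℝ) :
    ∃ K : ℕ, ∀ k : ℕ, K ≤ k → ∀ {V : Type} [Fintype V] (G : SimpleGraph V),
      (2.748 : ℝ) ^ k ≤ (Fintype.card V : ℝ) →
      Bijumbled G (1 / 2) (Bc * (Fintype.card V : ℝ) ^ (0.5 : ℝ)) →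
      (∃ s : Finset V, G.IsNClique k s) ∨ (∃ s : Finset V, Gᶜ.IsNClique k s) := by
  have hv : Real.exp (((1010873000 : ℕ) : ℝ) / (1000000000 : ℕ)) ≤ ((2748 : ℕ) : ℝ) / ((1000 : ℕ) : ℝ) :=
    expU_sound (by norm_num) (by decide +kernel)
  refine pseudo_nat (c := cd1) cd1_ok (p1 := 499990000) (p2 := 499990000) (b1 := 2066028135)
    (b2 := 305489442) (A := 3856603070) (W := 515020051) (lp1 := 693167181) (lth1 := 282930613)
    (lp2 := 693167181) (lth2 := 213504865) (e1 := 2415764184) (v1 := 89299072) (e2 := 190743646)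
    (v2 := 826344398) (by decide +kernel)
    (L1 := (122634319, 1866675000)) (s1 := true) (L2 := (116470777, 1915592000)) (s2 := true) (t := 999999990)
    (B := 253365954) (M1 := (158292703, 1629093000)) (c1 := false) (M2 := (148694855, 1685885000)) (c2 := false)
    (t2 := 976) (A2 := 45424712) (by decide +kernel) (by decide +kernel) (by norm_num) (by norm_num)
    (θ := 0.50001) (by norm_num) (by norm_num) (by norm_num) (by norm_num)
    (v := ((1010873000 : ℕ) : ℝ) / (1000000000 : ℕ)) (by norm_num at hv ⊢; exact hv) (by positivity)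
    (by norm_num) Bc

/-- the row of the table for the exponent `0.6` -/
theorem p6 (Bc : ℝ) :
    ∃ K : ℕ, ∀ k : ℕ, K ≤ k → ∀ {V : Type} [Fintype V] (G : SimpleGraph V),
      (2.887 : ℝ) ^ k ≤ (Fintype.card V : ℝ) →
      Bijumbled G (1 / 2) (Bc * (Fintype.card V : ℝ) ^ (0.6 : ℝ)) →
      (∃ s : Finset V, G.IsNClique k s) ∨ (∃ s : Finset V, Gᶜ.IsNClique k s) := by
  have hv : Real.exp (((1060217600 : ℕ) : ℝ) / (1000000000 : ℕ)) ≤ ((2887 : ℕ) : ℝ) / ((1000 : ℕ) : ℝ) :=
    expU_sound (by norm_num) (by decide +kernel)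
  refine pseudo_nat (c := cd2) cd2_ok (p1 := 499990000) (p2 := 499990000) (b1 := 1854471406)
    (b2 := 526499246) (A := 3126425542) (W := 786089138) (lp1 := 693167181) (lth1 := 311165125)
    (lp2 := 693167181) (lth2 := 266978404) (e1 := 1815916413) (v1 := 162688750) (e2 := 294701181)
    (v2 := 744754101) (by decide +kernel)
    (L1 := (148694855, 1685885000)) (s1 := true) (L2 := (143983769, 1715702000)) (s2 := true) (t := 999999717)
    (B := 275750355) (M1 := (193204784, 1452139000)) (c1 := false) (M2 := (184368008, 1493050000)) (c2 := false)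
    (t2 := 26057) (A2 := 97069739) (by decide +kernel) (by decide +kernel) (by norm_num) (by norm_num)
    (θ := 0.60001) (by norm_num) (by norm_num) (by norm_num) (by norm_num)
    (v := ((1060217600 : ℕ) : ℝ) / (1000000000 : ℕ)) (by norm_num at hv ⊢; exact hv) (by positivity)
    (by norm_num) Bc

/-- the row of the table for the exponent `0.7` -/
theorem p7 (Bc : ℝ) :
    ∃ K : ℕ, ∀ k : ℕ, K ≤ k → ∀ {V : Type} [Fintype V] (G : SimpleGraph V),
      (2.99 : ℝ) ^ k ≤ (Fintype.card V : ℝ) →
      Bijumbled G (1 / 2) (Bc * (Fintype.card V : ℝ) ^ (0.7 : ℝ)) →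
      (∃ s : Finset V, G.IsNClique k s) ∨ (∃ s : Finset V, Gᶜ.IsNClique k s) := by
  have hv : Real.exp (((1095273000 : ℕ) : ℝ) / (1000000000 : ℕ)) ≤ ((299 : ℕ) : ℝ) / ((100 : ℕ) : ℝ) :=
    expU_sound (by norm_num) (by decide +kernel)
  refine pseudo_nat (c := cd3) cd3_ok (p1 := 499990000) (p2 := 499990000) (b1 := 1844347174)
    (b2 := 1178011887) (A := 2753702512) (W := 1380757986) (lp1 := 693167181) (lth1 := 306023575)
    (lp2 := 693167181) (lth2 := 284436683) (e1 := 1410301599) (v1 := 244069661) (e2 := 443341321)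
    (v2 := 641888080) (by decide +kernel)
    (L1 := (193204784, 1452139000)) (s1 := true) (L2 := (184368008, 1493050000)) (s2 := true) (t := 479)
    (B := 340038623) (M1 := (270979166, 1115379881)) (c1 := false) (M2 := (254811442, 1172108738)) (c2 := false)
    (t2 := 602) (A2 := 300170920) (by decide +kernel) (by decide +kernel) (by norm_num) (by norm_num)
    (θ := 0.70001) (by norm_num) (by norm_num) (by norm_num) (by norm_num)
    (v := ((1095273000 : ℕ) : ℝ) / (1000000000 : ℕ)) (by norm_num at hv ⊢; exact hv) (by positivity)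
    (by norm_num) Bc

/-- the row of the table for the exponent `0.8` -/
theorem p8 (Bc : ℝ) :
    ∃ K : ℕ, ∀ k : ℕ, K ≤ k → ∀ {V : Type} [Fintype V] (G : SimpleGraph V),
      (3.051 : ℝ) ^ k ≤ (Fintype.card V : ℝ) →
      Bijumbled G (1 / 2) (Bc * (Fintype.card V : ℝ) ^ (0.8 : ℝ)) →
      (∃ s : Finset V, G.IsNClique k s) ∨ (∃ s : Finset V, Gᶜ.IsNClique k s) := by
  have hv : Real.exp (((1115469100 : ℕ) : ℝ) / (1000000000 : ℕ)) ≤ ((3051 : ℕ) : ℝ) / ((1000 : ℕ) : ℝ) :=
    expU_sound (by norm_num) (by decide +kernel)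
  refine pseudo_nat (c := cd3) cd3_ok (p1 := 499990000) (p2 := 499990000) (b1 := 2668634150)
    (b2 := 1741434180) (A := 3127929401) (W := 1942360631) (lp1 := 693167181) (lth1 := 306023575)
    (lp2 := 693167181) (lth2 := 284436683) (e1 := 1182090596) (v1 := 306637014) (e2 := 560383753)
    (v2 := 570989903) (by decide +kernel)
    (L1 := (270979166, 1115379881)) (s1 := true) (L2 := (254811442, 1172108738)) (s2 := true) (t := 32)
    (B := 679998518) (M1 := (286100850, 1067752531)) (c1 := false) (M2 := (270979166, 1115379881)) (c2 := false)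
    (t2 := 211) (A2 := 471892388) (by decide +kernel) (by decide +kernel) (by norm_num) (by norm_num)
    (θ := 0.80001) (by norm_num) (by norm_num) (by norm_num) (by norm_num)
    (v := ((1115469100 : ℕ) : ℝ) / (1000000000 : ℕ)) (by norm_num at hv ⊢; exact hv) (by positivity)
    (by norm_num) Bc

/-- the row of the table for the exponent `0.9` -/
theorem p9 (Bc : ℝ) :
    ∃ K : ℕ, ∀ k : ℕ, K ≤ k → ∀ {V : Type} [Fintype V] (G : SimpleGraph V),
      (3.095 : ℝ) ^ k ≤ (Fintype.card V : ℝ) →
      Bijumbled G (1 / 2) (Bc * (Fintype.card V : ℝ) ^ (0.9 : ℝ)) →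
      (∃ s : Finset V, G.IsNClique k s) ∨ (∃ s : Finset V, Gᶜ.IsNClique k s) := by
  have hv : Real.exp (((1129787600 : ℕ) : ℝ) / (1000000000 : ℕ)) ≤ ((3095 : ℕ) : ℝ) / ((1000 : ℕ) : ℝ) :=
    expU_sound (by norm_num) (by decide +kernel)
  refine pseudo_nat (c := cc1) cc1_ok (p1 := 499990000) (p2 := 499990000) (b1 := 2613712132)
    (b2 := 2336494343) (A := 2915281862) (W := 2494798134) (lp1 := 693167181) (lth1 := 273846248)
    (lp2 := 693167181) (lth2 := 273846248) (e1 := 985621368) (v1 := 373207256) (e2 := 743304950)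
    (v2 := 475539681) (by decide +kernel)
    (L1 := (286100850, 1067752531)) (s1 := true) (L2 := (270979166, 1115379881)) (s2 := true) (t := 521)
    (B := 708261555) (M1 := (286100850, 1067752531)) (c1 := false) (M2 := (270979166, 1115379881)) (c2 := false)
    (t2 := 999996535) (A2 := 668472896) (by decide +kernel) (by decide +kernel) (by norm_num) (by norm_num)
    (θ := 0.90001) (by norm_num) (by norm_num) (by norm_num) (by norm_num)
    (v := ((1129787600 : ℕ) : ℝ) / (1000000000 : ℕ)) (by norm_num at hv ⊢; exact hv) (by positivity)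
    (by norm_num) Bc

end Pool.Agent.V7H28.RM
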